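import Pool.Agent.Q72.MX.Stm
import Pool.Agent.Y563.SE.Main

/-! Project MX (helper72): the theorem for all translates. -/

set_option autoImplicit false

namespace Pool.Agent.Q72.MX

open MvPolynomial Pool.Agent.Y563.SE

variable {n : ℕ}

/-- factor -/
noncomputable def fA (c : Fin n ⊕ Fin n → ℂ) : Fin n ⊕ Fin n → ℂ :=
  Sum.elim (fun _ => 1) (fun i => c (Sum.inr i))

/-- shift -/
noncomputable def fB (c : Fin n ⊕ Fin n → ℂ) : Fin n ⊕ Fin n → ℂ :=
  Sum.elim (fun i => c (Sum.inl i)) (fun _ => 0)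

/-- the action -/
noncomputable def act (c u : Fin n ⊕ Fin n → ℂ) : Fin n ⊕ Fin n → ℂ :=
  fun s => fA c s * u s + fB c s

/-- the inverse action -/
noncomputable def actI (c u : Fin n ⊕ Fin n → ℂ) : Fin n ⊕ Fin n → ℂ :=
  fun s => (fA c s)⁻¹ * (u s - fB c s)

theorem fA_ne {c : Fin n ⊕ Fin n → ℂ} (hc : ∀ i, c (Sum.inr i) ≠ 0) (s) : fA c s ≠ 0 := by
  rcases s with s | s
  · simp [fA]
  · simpa [fA] using hc s

theorem act_actI {c : Fin n ⊕ Fin n → ℂ} (hc : ∀ i, c (Sum.inr i) ≠ 0) (u) :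
    act c (actI c u) = u := by
  funext s
  have := fA_ne hc s
  simp only [act, actI]
  field_simp
  ring

theorem actI_act {c : Fin n ⊕ Fin n → ℂ} (hc : ∀ i, c (Sum.inr i) ≠ 0) (u) :
    actI c (act c u) = u := by
  funext s
  have := fA_ne hc s
  simp only [act, actI]
  field_simp
  ring

theorem trs_eq (c : Fin n ⊕ Fin n → ℂ) (V : Set (Fin n ⊕ Fin n → ℂ)) :
    Trs c V = act c '' V := by
  ext p
  constructor
  · rintro ⟨u, hu, rfl⟩
    refine ⟨u, hu, ?_⟩
    funext s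
    rcases s with s | s <;> simp [act, fA, fB]
  · rintro ⟨u, hu, rfl⟩
    refine ⟨u, hu, ?_⟩
    funext s
    rcases s with s | s <;> simp [act, fA, fB]

/-- substitution of the action -/
noncomputable def ta (c : Fin n ⊕ Fin n → ℂ) :
    MvPolynomial (Fin n ⊕ Fin n) ℂ →ₐ[ℂ] MvPolynomial (Fin n ⊕ Fin n) ℂ :=
  bind₁ (fun s => C (fA c s) * X s + C (fB c s))

/-- substitution of the inverse action -/
noncomputable def tb (c : Fin n ⊕ Fin n → ℂ) :
    MvPolynomial (Fin n ⊕ Fin n) ℂ →ₐ[ℂ] MvPolynomial (Fin n ⊕ Fin n) ℂ :=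
  bind₁ (fun s => C (fA c s)⁻¹ * (X s - C (fB c s)))

theorem eval_bind {σ τ : Type*} (g : σ → MvPolynomial τ ℂ) (u : τ → ℂ) (f : MvPolynomial σ ℂ) :
    eval u (bind₁ g f) = eval (fun s => eval u (g s)) f := by
  rw [← MvPolynomial.coe_aeval_eq_eval, ← MvPolynomial.coe_aeval_eq_eval]
  simp only [RingHom.coe_coe]
  rw [MvPolynomial.aeval_bind₁]

theorem eval_ta (c u : Fin n ⊕ Fin n → ℂ) (f) : eval u (ta c f) = eval (act c u) f := by
  unfold ta
  rw [eval_bind]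
  have : (fun s => eval u (C (fA c s) * X s + C (fB c s))) = act c u := by
    funext s
    simp [act]
  rw [this]

theorem eval_tb (c u : Fin n ⊕ Fin n → ℂ) (f) : eval u (tb c f) = eval (actI c u) f := by
  unfold tb
  rw [eval_bind]
  have : (fun s => eval u (C (fA c s)⁻¹ * (X s - C (fB c s)))) = actI c u := by
    funext s
    simp [actI]
  rw [this]

theorem vm_translate (hVM : S_VM) (P : Ideal (MvPolynomial (Fin n ⊕ Fin n) ℂ))
    (V : Set (Fin n ⊕ Fin n → ℂ)) (hP : P.IsPrime)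
    (hV : V = {p | (∀ f ∈ P, eval p f = 0) ∧ ∀ j : Fin n, p (Sum.inr j) ≠ 0})
    (hadd : ∀ m : Fin n → ℤ, m ≠ 0 → ∀ c : ℂ, ∃ p ∈ V,
      (∑ j : Fin n, (m j : ℂ) * p (Sum.inl j)) ≠ c)
    (hmul : ∀ m : Fin n → ℤ, m ≠ 0 → ∀ c : ℂ, ∃ p ∈ V, (∏ j : Fin n, p (Sum.inr j) ^ (m j)) ≠ c)
    (hdim : ∃ J : Finset (Fin n ⊕ Fin n), n ≤ J.card ∧
      ∀ f : MvPolynomial (Fin n ⊕ Fin n) ℂ, f.vars ⊆ J → (∀ p ∈ V, eval p f = 0) → f = 0)
    (J : Finset (Fin n))
    (hcurve : ∀ i j : Fin n, ∃ f : MvPolynomial (Fin 2) ℂ, f ≠ 0 ∧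
      ∀ p ∈ V, eval ![p (bs J i), p (bs J j)] f = 0)
    (c : Fin n ⊕ Fin n → ℂ) (hc : ∀ i, c (Sum.inr i) ≠ 0)
    (H : MvPolynomial (Fin n) ℂ) (hH : ∃ p ∈ Trs c V, eval (fun j => p (bs J j)) H ≠ 0) :
    ∃ z : Fin n → ℂ, Ev z ∈ Trs c V ∧ eval (fun j => Ev z (bs J j)) H ≠ 0 := by
  classical
  have hVmem : ∀ p, p ∈ V ↔ (∀ f ∈ P, eval p f = 0) ∧ ∀ j : Fin n, p (Sum.inr j) ≠ 0 := by
    intro p; rw [hV]; rfl
  have htatb : ∀ g, ta c (tb c g) = g := by
    intro g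
    apply MvPolynomial.funext
    intro w
    rw [eval_ta, eval_tb, actI_act hc]
  have hta0 : ∀ f, ta c f = 0 → f = 0 := by
    intro f hf
    apply MvPolynomial.funext
    intro w
    rw [map_zero, ← act_actI hc w, ← eval_ta, hf, map_zero]
  have hPc : (P.comap (ta c)).IsPrime := hP.comap _
  have hT : Trs c V = {p | (∀ f ∈ P.comap (ta c), eval p f = 0) ∧
      ∀ j : Fin n, p (Sum.inr j) ≠ 0} := by
    rw [trs_eq]
    ext p
    constructor
    · rintro ⟨u, hu, rfl⟩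
      refine ⟨fun f hf => ?_, fun j => ?_⟩
      · rw [← eval_ta]
        exact ((hVmem u).1 hu).1 _ hf
      · have h1 := ((hVmem u).1 hu).2 j
        have h2 := hc j
        simp [act, fA, fB, h1, h2]
    · rintro ⟨h1, h2⟩
      refine ⟨actI c p, (hVmem _).2 ⟨fun g hg => ?_, fun j => ?_⟩, act_actI hc p⟩
      · rw [← eval_tb]
        apply h1
        rw [Ideal.mem_comap, htatb]
        exact hg
      · have h3 := hc j
        have h4 := h2 j
        simp [actI, fA, fB, h3, h4]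
  have key := hVM n (P.comap (ta c)) (Trs c V) hPc hT ?_ ?_ ?_ J ?_ H hH
  · obtain ⟨z, hz1, hz2⟩ := key
    refine ⟨z, ?_, hz2⟩
    rw [hT]
    refine ⟨hz1, fun j => ?_⟩
    show (Sum.elim z (fun i : Fin n => Complex.exp (z i)) : Fin n ⊕ Fin n → ℂ) (Sum.inr j) ≠ 0
    exact Complex.exp_ne_zero _
  · intro m hm c0
    obtain ⟨p, hp, hpc⟩ := hadd m hm (c0 - ∑ j : Fin n, (m j : ℂ) * c (Sum.inl j))
    refine ⟨act c p, ?_, fun h => hpc ?_⟩
    · rw [trs_eq]; exact ⟨p, hp, rfl⟩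
    · rw [← h, ← Finset.sum_sub_distrib]
      refine Finset.sum_congr rfl fun j _ => ?_
      simp [act, fA, fB]
      ring
  · intro m hm c0
    have hne : ∏ j : Fin n, c (Sum.inr j) ^ m j ≠ 0 :=
      Finset.prod_ne_zero_iff.2 fun j _ => zpow_ne_zero _ (hc j)
    obtain ⟨p, hp, hpc⟩ := hmul m hm (c0 / ∏ j : Fin n, c (Sum.inr j) ^ m j)
    refine ⟨act c p, ?_, fun h => hpc ?_⟩
    · rw [trs_eq]; exact ⟨p, hp, rfl⟩
    · rw [eq_div_iff hne, ← h, ← Finset.prod_mul_distrib]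
      refine Finset.prod_congr rfl fun j _ => ?_
      simp only [act, fA, fB, Sum.elim_inr, add_zero]
      rw [mul_zpow, mul_comm]
  · obtain ⟨J0, hJ0, hJ0i⟩ := hdim
    refine ⟨J0, hJ0, fun f hf h1 => hta0 f (hJ0i _ ?_ ?_)⟩
    · unfold ta
      refine (MvPolynomial.vars_bind₁ _ _).trans ?_
      intro k hk
      rw [Finset.mem_biUnion] at hk
      obtain ⟨s, hs, hks⟩ := hk
      have h2 := MvPolynomial.vars_add_subset _ _ hks
      rw [MvPolynomial.vars_C, Finset.union_empty] at h2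
      have h3 := MvPolynomial.vars_mul _ _ h2
      rw [MvPolynomial.vars_C, Finset.empty_union, MvPolynomial.vars_X,
        Finset.mem_singleton] at h3
      rw [h3]
      exact hf hs
    · intro p hp
      rw [eval_ta]
      apply h1
      rw [trs_eq]
      exact ⟨p, hp, rfl⟩
  · intro i j
    obtain ⟨f, hf, hf0⟩ := hcurve i j
    refine ⟨bind₁ ![C (fA c (bs J i))⁻¹ * (X 0 - C (fB c (bs J i))),
      C (fA c (bs J j))⁻¹ * (X 1 - C (fB c (bs J j)))] f, ?_, ?_⟩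
    · intro h
      apply hf
      apply MvPolynomial.funext
      intro w
      have h1 := congrArg (eval ![fA c (bs J i) * w 0 + fB c (bs J i),
        fA c (bs J j) * w 1 + fB c (bs J j)]) h
      rw [eval_bind, map_zero] at h1
      rw [map_zero, ← h1]
      congr 2
      funext k
      have h2 := fA_ne hc (bs J i)
      have h3 := fA_ne hc (bs J j)
      fin_cases k
      · simp [h2]
      · simp [h3]
    · rintro p hp
      rw [trs_eq] at hp
      obtain ⟨u, hu, rfl⟩ := hp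
      rw [eval_bind, ← hf0 u hu]
      congr 2
      funext k
      have h2 := fA_ne hc (bs J i)
      have h3 := fA_ne hc (bs J j)
      fin_cases k
      · simp [act, h2]
      · simp [act, h3]

end Pool.Agent.Q72.MX
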