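import Pool.Agent.Q72.MX.Stm

/-! Project MX: S_M from S_M1 and S_M2. -/

set_option autoImplicit false

namespace Pool.Agent.Q72.MX

open Filter Topology Polynomial Pool.Agent.W996.EC

theorem hc_ne {a : ℕ} (P : MvPolynomial (Fin a) ℂ) (hP : P ≠ 0) :
    MvPolynomial.homogeneousComponent P.totalDegree P ≠ 0 := by
  obtain ⟨m, hm, hd⟩ := Finset.exists_mem_eq_sup P.support
    (MvPolynomial.support_nonempty.2 hP) (fun s => s.degree)
  intro h
  have h1 := congrArg (MvPolynomial.coeff m) h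
  rw [MvPolynomial.coeff_homogeneousComponent, MvPolynomial.coeff_zero, if_pos] at h1
  · exact (MvPolynomial.mem_support_iff.1 hm) h1
  · rw [MvPolynomial.totalDegree]
    rw [show (P.support.sup fun s => s.sum fun _ e => e) = P.support.sup fun s => s.degree from ?_]
    · exact hd.symm
    · rfl

theorem lt_of_hc {a : ℕ} (P : MvPolynomial (Fin a) ℂ) (D : ℕ) (h1 : P.totalDegree ≤ D)
    (h2 : MvPolynomial.homogeneousComponent D P = 0) : P = 0 ∨ P.totalDegree < D := by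
  by_cases hP : P = 0
  · exact Or.inl hP
  · right
    rcases Nat.lt_or_ge P.totalDegree D with h | h
    · exact h
    · have : P.totalDegree = D := le_antisymm h1 h
      exact absurd (this ▸ h2) (hc_ne P hP)

theorem t_M (hM1 : S_M1) (hM2 : S_M2) : S_M := by
  classical
  intro a b F h R S hC hR hR0 hS B Q β1 β2 hβ1 hβ2 hne h1 h2
  -- the set of degrees which occur
  let E : ℕ → Prop := fun D => ∃ β ∈ B, ∃ p ∈ TT F h,
    spec (Q β) p.1 p.2 ≠ 0 ∧ (spec (Q β) p.1 p.2).totalDegree = D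
  have hE0 : ∃ D, E D := by
    obtain ⟨p, hp, hp0⟩ := h1
    exact ⟨_, β1, hβ1, p, hp, hp0, rfl⟩
  have hbd : ∀ D, E D → D ≤ B.sup (fun β => (Q β).totalDegree) := by
    rintro D ⟨β, hβ, p, hp, hp0, rfl⟩
    refine le_trans ?_ (Finset.le_sup (f := fun β => (Q β).totalDegree) hβ)
    unfold MvPolynomial.totalDegree
    exact Finset.sup_mono (MvPolynomial.support_map_subset _ _)
  obtain ⟨D, hD, hmax⟩ : ∃ D, E D ∧ ∀ D', E D' → D' ≤ D := by
    refine ⟨Nat.findGreatest E (B.sup fun β => (Q β).totalDegree), ?_, ?_⟩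
    · obtain ⟨D, hD⟩ := hE0
      exact Nat.findGreatest_spec (hbd D hD) hD
    · intro D' hD'
      exact Nat.le_findGreatest (hbd D' hD') hD'
  have hle : ∀ β ∈ B, ∀ p ∈ TT F h, (spec (Q β) p.1 p.2).totalDegree ≤ D := by
    intro β hβ p hp
    by_cases h0 : spec (Q β) p.1 p.2 = 0
    · rw [h0, MvPolynomial.totalDegree_zero]; exact Nat.zero_le _
    · exact hmax _ ⟨β, hβ, p, hp, h0, rfl⟩
  obtain ⟨β0, hβ0, p0, hp0, hn0, hd0⟩ := hD
  have hc0 : ∃ p ∈ TT F h, MvPolynomial.homogeneousComponent D (spec (Q β0) p.1 p.2) ≠ 0 :=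
    ⟨p0, hp0, hd0 ▸ hc_ne _ hn0⟩
  by_cases hcase : ∃ β ∈ B, β ≠ β0 ∧ ∃ p ∈ TT F h,
      MvPolynomial.homogeneousComponent D (spec (Q β) p.1 p.2) ≠ 0
  · obtain ⟨β, hβ, hββ0, hp⟩ := hcase
    exact hM1 a b D F h R S hC hR hR0 hS B Q β β0 hβ hβ0 hββ0 hle hp hc0
  · push Not at hcase
    obtain ⟨β', hβ', hβ'0, hp'⟩ : ∃ β' ∈ B, β' ≠ β0 ∧ ∃ p ∈ TT F h, spec (Q β') p.1 p.2 ≠ 0 := by
      by_cases h3 : β1 = β0
      · exact ⟨β2, hβ2, fun h4 => hne (h3.trans h4.symm), h2⟩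
      · exact ⟨β1, hβ1, h3, h1⟩
    exact hM2 a b D F h R S hC hR hR0 hS B Q β0 β' hβ0 hβ' hβ'0 (hle β0 hβ0)
      (fun β hβ hβ0' p hp => lt_of_hc _ D (hle β hβ p hp) (hcase β hβ hβ0' p hp)) hc0 hp'

end Pool.Agent.Q72.MX
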