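import Pool.Agent.Q72.MX.M1
import Pool.Agent.Q72.MX.AsmM
import Pool.Agent.W996.EC.QFinal

/-! Project MX (helper72): S_M2 from S_PP, S_IT, S_EX, S_G01, S_XP. -/

set_option autoImplicit false

namespace Pool.Agent.Q72.MX

open Filter Topology Polynomial Pool.Agent.W996.EC

/-! ### germs -/

theorem Germ0.const (c0 : ℝ) (c : ℂ) : Germ0 c0 (fun _ => c) :=
  ⟨fun _ => c, MeromorphicAt.const c 0, fun _ _ => rfl⟩

theorem Germ0.add {c0 : ℝ} {A B : ℂ → ℂ} (hA : Germ0 c0 A) (hB : Germ0 c0 B) :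
    Germ0 c0 (fun w => A w + B w) := by
  obtain ⟨a, ha, ha2⟩ := hA
  obtain ⟨b, hb, hb2⟩ := hB
  exact ⟨fun q => a q + b q, ha.add hb, fun w hw => by simp only [ha2 w hw, hb2 w hw]⟩

theorem Germ0.mul {c0 : ℝ} {A B : ℂ → ℂ} (hA : Germ0 c0 A) (hB : Germ0 c0 B) :
    Germ0 c0 (fun w => A w * B w) := by
  obtain ⟨a, ha, ha2⟩ := hA
  obtain ⟨b, hb, hb2⟩ := hB
  exact ⟨fun q => a q * b q, ha.mul hb, fun w hw => by simp only [ha2 w hw, hb2 w hw]⟩

theorem Germ0.sum {c0 : ℝ} {ι : Type*} (s : Finset ι) {A : ι → ℂ → ℂ}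
    (hA : ∀ i ∈ s, Germ0 c0 (A i)) : Germ0 c0 (fun w => ∑ i ∈ s, A i w) := by
  classical
  induction s using Finset.induction_on with
  | empty => simpa using Germ0.const c0 0
  | insert i s hi ih =>
    have h1 : (fun w => ∑ j ∈ insert i s, A j w) = fun w => A i w + ∑ j ∈ s, A j w := by
      funext w
      rw [Finset.sum_insert hi]
    rw [h1]
    exact (hA i (Finset.mem_insert_self i s)).add
      (ih fun j hj => hA j (Finset.mem_insert_of_mem hj))

theorem Germ0.congr {c0 : ℝ} {A B : ℂ → ℂ} (hA : Germ0 c0 A) (h : ∀ w ∈ LH c0, B w = A w) :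
    Germ0 c0 B := by
  obtain ⟨a, ha, ha2⟩ := hA
  exact ⟨a, ha, fun w hw => (h w hw).trans (ha2 w hw)⟩

/-! ### regular functions -/

theorem reg_add {T : Set (ℂ × ℂ)} {f g : ℂ × ℂ → ℂ} (hf : Reg T f) (hg : Reg T g) :
    Reg T (fun p => f p + g p) := by
  obtain ⟨A, B, h1⟩ := hf
  obtain ⟨A', B', h2⟩ := hg
  refine ⟨A * B' + A' * B, B * B', fun p hp => ?_⟩
  obtain ⟨h3, h4⟩ := h1 p hp
  obtain ⟨h5, h6⟩ := h2 p hp
  refine ⟨?_, ?_⟩
  · rw [evalEval_mul]; exact mul_ne_zero h3 h5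
  · simp only [h4, h6, evalEval_add, evalEval_mul]
    field_simp

theorem reg_const (T : Set (ℂ × ℂ)) (c : ℂ) : Reg T (fun _ => c) :=
  ⟨C (C c), 1, fun p _ => by simp⟩

theorem reg_sum {T : Set (ℂ × ℂ)} {ι : Type*} (s : Finset ι) {f : ι → ℂ × ℂ → ℂ}
    (hf : ∀ i ∈ s, Reg T (f i)) : Reg T (fun p => ∑ i ∈ s, f i p) := by
  classical
  induction s using Finset.induction_on with
  | empty => simpa using reg_const T 0
  | insert i s hi ih =>
    have h1 : (fun p => ∑ j ∈ insert i s, f j p) = fun p => f i p + ∑ j ∈ s, f j p := by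
      funext w
      rw [Finset.sum_insert hi]
    rw [h1]
    exact reg_add (hf i (Finset.mem_insert_self i s))
      (ih fun j hj => hf j (Finset.mem_insert_of_mem hj))

theorem reg_dt {T : Set (ℂ × ℂ)} {b : ℕ} {S : Fin b → ℂ × ℂ → ℂ} (hS : ∀ j, Reg T (S j))
    (β : Fin b → ℤ) : Reg T (dt S β) := by
  have : Reg T (fun p => ∑ j ∈ Finset.univ, (β j : ℂ) * S j p) :=
    reg_sum _ fun j _ => Pool.Agent.W337.EC.reg_mul (reg_const T _) (hS j)
  exact this

theorem dt_sub {b : ℕ} (S : Fin b → ℂ × ℂ → ℂ) (β γ : Fin b → ℤ) (p : ℂ × ℂ) :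
    dt S (β - γ) p = dt S β p - dt S γ p := by
  unfold dt
  rw [← Finset.sum_sub_distrib]
  refine Finset.sum_congr rfl fun j _ => ?_
  rw [Pi.sub_apply]
  push_cast
  ring

theorem place_mero {T : Set (ℂ × ℂ)} {t : ℂ → ℂ × ℂ} {c0 : ℝ} (ht : IsPlace T t c0)
    {g : ℂ × ℂ → ℂ} (hg : Reg T g) : ∃ a : ℂ → ℂ, MeromorphicAt a 0 ∧
      ∀ᶠ c : ℝ in atBot, ∀ w : ℂ, w.re < c → g (t w) = a (Complex.exp w) := by
  rcases ht.2.2.2 g hg with h | ⟨l, G, c1, hG, -, hc1, h⟩
  · refine ⟨fun _ => 0, MeromorphicAt.const 0 0, ?_⟩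
    filter_upwards [eventually_le_atBot c0] with c hc w hw
    exact h w (lt_of_lt_of_le hw hc)
  · refine ⟨fun q => q ^ l * G q, ?_, ?_⟩
    · exact ((MeromorphicAt.id 0).zpow l).mul hG.meromorphicAt
    · filter_upwards [eventually_le_atBot c1] with c hc w hw
      rw [h w (lt_of_lt_of_le hw hc), Complex.exp_int_mul]

theorem near0 {p : ℂ → Prop} (hp : ∀ᶠ q in 𝓝[≠] (0 : ℂ), p q) :
    ∀ᶠ c : ℝ in atBot, ∀ w : ℂ, w.re < c → p (Complex.exp w) := by
  rw [eventually_nhdsWithin_iff] at hp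
  obtain ⟨ε, hε, hball⟩ := Metric.eventually_nhds_iff_ball.1 hp
  filter_upwards [eventually_le_atBot (Real.log ε)] with c hc w hw
  refine hball _ ?_ (Complex.exp_ne_zero w)
  rw [mem_ball_zero_iff, Complex.norm_exp, ← Real.lt_log_iff_exp_lt hε]
  exact lt_of_lt_of_le hw hc

/-! ### polynomials -/

theorem exists_max_deg {a D : ℕ} (s : Set ℂ) (p : ℂ → MvPolynomial (Fin a) ℂ)
    (h0 : ∃ w ∈ s, p w ≠ 0) (hD : ∀ w ∈ s, (p w).totalDegree ≤ D) :
    ∃ w0 ∈ s, p w0 ≠ 0 ∧ ∀ w ∈ s, (p w).totalDegree ≤ (p w0).totalDegree := by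
  classical
  obtain ⟨w1, hw1, hp1⟩ := h0
  let E : ℕ → Prop := fun d => ∃ w ∈ s, p w ≠ 0 ∧ (p w).totalDegree = d
  have hE1 : E (p w1).totalDegree := ⟨w1, hw1, hp1, rfl⟩
  have hE2 : E (Nat.findGreatest E D) := Nat.findGreatest_spec (hD w1 hw1) hE1
  obtain ⟨w0, hw0, hp0, hd0⟩ := hE2
  refine ⟨w0, hw0, hp0, fun w hw => ?_⟩
  by_cases hp : p w = 0
  · rw [hp, MvPolynomial.totalDegree_zero]
    exact Nat.zero_le _
  · rw [hd0]
    exact Nat.le_findGreatest (hD w hw) ⟨w, hw, hp, rfl⟩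

theorem eval_hom_sum {a d : ℕ} (κ : Fin a → ℤ) (q : MvPolynomial (Fin a) ℂ) (M : Finset (Fin a →₀ ℕ))
    (hM : ∀ m, m.degree = d → m ∈ M) :
    MvPolynomial.eval (fun j => (κ j : ℂ)) (MvPolynomial.homogeneousComponent d q) =
      ∑ m ∈ M, if m.degree = d then MvPolynomial.coeff m q *
        m.prod (fun i k => ((κ i : ℂ)) ^ k) else 0 := by
  classical
  have h1 : MvPolynomial.homogeneousComponent d q = ∑ m ∈ M, if m.degree = d then
      MvPolynomial.monomial m (MvPolynomial.coeff m q) else 0 := by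
    ext k
    rw [MvPolynomial.coeff_homogeneousComponent, MvPolynomial.coeff_sum]
    by_cases hk : k.degree = d
    · rw [if_pos hk, Finset.sum_eq_single k]
      · rw [if_pos hk, MvPolynomial.coeff_monomial, if_pos rfl]
      · intro m _ hmk
        split_ifs with h
        · rw [MvPolynomial.coeff_monomial, if_neg hmk]
        · rw [MvPolynomial.coeff_zero]
      · intro h
        exact absurd (hM k hk) h
    · rw [if_neg hk]
      symm
      refine Finset.sum_eq_zero fun m _ => ?_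
      split_ifs with h
      · rw [MvPolynomial.coeff_monomial, if_neg]
        rintro rfl
        exact hk h
      · rw [MvPolynomial.coeff_zero]
  rw [h1, map_sum]
  refine Finset.sum_congr rfl fun m _ => ?_
  split_ifs with h
  · rw [MvPolynomial.eval_monomial]
  · rw [map_zero]

theorem exists_Md (a d : ℕ) : ∃ M : Finset (Fin a →₀ ℕ), ∀ m, m.degree = d → m ∈ M := by
  classical
  refine ⟨Finset.univ.finsuppAntidiag d, fun m hm => ?_⟩
  rw [Finset.mem_finsuppAntidiag]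
  refine ⟨?_, Finset.subset_univ _⟩
  rw [← hm, Finsupp.degree_eq_sum]

theorem germ_hom {a d : ℕ} {c0 : ℝ} (κ : Fin a → ℤ) (p : ℂ → MvPolynomial (Fin a) ℂ)
    (h1 : ∀ m, Germ0 c0 (fun w => MvPolynomial.coeff m (p w)))
    (h2 : ∀ m, DifferentiableOn ℂ (fun w => MvPolynomial.coeff m (p w)) (LH c0)) :
    Germ0 c0 (fun w => MvPolynomial.eval (fun j => (κ j : ℂ))
      (MvPolynomial.homogeneousComponent d (p w))) ∧
    DifferentiableOn ℂ (fun w => MvPolynomial.eval (fun j => (κ j : ℂ))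
      (MvPolynomial.homogeneousComponent d (p w))) (LH c0) := by
  classical
  obtain ⟨M, hM⟩ := exists_Md a d
  have h3 : (fun w => MvPolynomial.eval (fun j => (κ j : ℂ))
      (MvPolynomial.homogeneousComponent d (p w))) = fun w => ∑ m ∈ M, if m.degree = d then
        MvPolynomial.coeff m (p w) * m.prod (fun i k => ((κ i : ℂ)) ^ k) else 0 := by
    funext w
    exact eval_hom_sum κ (p w) M hM
  rw [h3]
  constructor
  · refine Germ0.sum M fun m _ => ?_
    by_cases h : m.degree = d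
    · simp only [if_pos h]
      exact (h1 m).mul (Germ0.const c0 _)
    · simp only [if_neg h]
      exact Germ0.const c0 0
  · refine DifferentiableOn.fun_sum fun m _ => ?_
    by_cases h : m.degree = d
    · simp only [if_pos h]
      exact (h2 m).mul (differentiableOn_const _)
    · simp only [if_neg h]
      exact differentiableOn_const _

/-- the polynomial `P_u(w)` -/
noncomputable def PU {a b : ℕ} (B : Finset (Fin b → ℤ))
    (Q : (Fin b → ℤ) → MvPolynomial (Fin a) ℂ[X][X]) (t : ℂ → ℂ × ℂ)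
    (uu : (Fin b → ℤ) → ℂ[X]) (kk : (Fin b → ℤ) → ℂ → ℂ) (u : ℂ[X]) (w : ℂ) :
    MvPolynomial (Fin a) ℂ :=
  open Classical in
  ∑ γ ∈ B.filter (fun γ => uu γ = u), MvPolynomial.C (Complex.exp (kk γ (Complex.exp w))) *
    spec (Q γ) (t w).1 (t w).2

theorem coeff_PU {a b : ℕ} (B : Finset (Fin b → ℤ))
    (Q : (Fin b → ℤ) → MvPolynomial (Fin a) ℂ[X][X]) (t : ℂ → ℂ × ℂ)
    (uu : (Fin b → ℤ) → ℂ[X]) (kk : (Fin b → ℤ) → ℂ → ℂ) (u : ℂ[X]) (w : ℂ) (m : Fin a →₀ ℕ) :
    MvPolynomial.coeff m (PU B Q t uu kk u w) = open Classical in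
      ∑ γ ∈ B.filter (fun γ => uu γ = u), Complex.exp (kk γ (Complex.exp w)) *
        (MvPolynomial.coeff m (Q γ)).evalEval (t w).1 (t w).2 := by
  classical
  unfold PU
  rw [MvPolynomial.coeff_sum]
  refine Finset.sum_congr (by congr) fun γ _ => ?_
  rw [MvPolynomial.coeff_C_mul, coeff_spec]

theorem t_M2 (hPP : S_PP) (hIT : S_IT) (hEX : S_EX) (hG01 : S_G01) (hXP : S_XP) : S_M2 := by
  classical
  intro a b D F h R S hC hR hR0 hS B Q β0 β1 hβ0 hβ1 hne hle hlt hd0 hd1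
  -- the place
  have hm0 : β1 - β0 ≠ 0 := sub_ne_zero.2 hne
  have hbdd : S_bdd := Pool.Agent.W996.EC.bdd
  obtain ⟨K, tt, c0, htt, hbd⟩ := hbdd F h hC
  have hex : ∃ k, ¬ ∃ B' c1 : ℝ, ∀ w : ℂ, w.re < c1 → ‖dt S (β1 - β0) (tt k w)‖ ≤ B' := by
    by_contra hcon
    push Not at hcon
    exact hS.2 _ hm0 (hbd _ (reg_dt hS.1 _) hcon)
  obtain ⟨k0, hunb⟩ := hex
  set t := tt k0 with ht
  have htp : IsPlace (TT F h) t c0 := htt k0
  have hnc : ¬ ∃ p : ℂ × ℂ, ∀ w : ℂ, w.re < c0 → t w = p := by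
    rintro ⟨p, hp⟩
    exact hunb ⟨‖dt S (β1 - β0) p‖, c0, fun w hw => by rw [hp w hw]⟩
  obtain ⟨c1, a', b', hh, C0, hc1, hE⟩ :=
    Pool.Agent.W337.EC.t_end a (TT F h) R t c0 hR hR0 htp
  -- polar parts
  have hex : ∀ γ : Fin b → ℤ, ∃ (u : ℂ[X]) (k : ℂ → ℂ), u.coeff 0 = 0 ∧ AnalyticAt ℂ k 0 ∧
      (γ = β0 → u = 0 ∧ k = 0) ∧ ∀ᶠ c : ℝ in atBot, ∀ w : ℂ, w.re < c →
        dt S (γ - β0) (t w) = u.eval (Complex.exp (-w)) + k (Complex.exp w) := by
    intro γ
    by_cases hγ : γ = β0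
    · refine ⟨0, 0, by simp, analyticAt_const, fun _ => ⟨rfl, rfl⟩, Eventually.of_forall ?_⟩
      intro c w _
      rw [hγ, sub_self]
      simp [dt]
    · obtain ⟨g, hg, hg2⟩ := place_mero htp (reg_dt hS.1 (γ - β0))
      obtain ⟨u, k, hu, hk, huk⟩ := hPP g hg
      refine ⟨u, k, hu, hk, fun h => absurd h hγ, ?_⟩
      filter_upwards [hg2, near0 huk] with c h1 h2 w hw
      rw [h1 w hw, h2 w hw, Complex.exp_neg]
  choose uu kk huu hkk hu0 hev using hex
  have huβ0 : uu β0 = 0 := (hu0 β0 rfl).1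
  have hkβ0 : kk β0 = 0 := (hu0 β0 rfl).2
  have hex : ∀ (γ : Fin b → ℤ) (m : Fin a →₀ ℕ), ∃ g : ℂ → ℂ, MeromorphicAt g 0 ∧
      ∀ᶠ c : ℝ in atBot, ∀ w : ℂ, w.re < c →
        (MvPolynomial.coeff m (Q γ)).evalEval (t w).1 (t w).2 = g (Complex.exp w) := fun γ m =>
    place_mero htp (reg_evalEval _ _)
  choose gg hgg hgg2 using hex
  -- the half plane
  have hall : ∀ᶠ c : ℝ in atBot, (∀ γ ∈ B, ∀ w : ℂ, w.re < c →
        dt S (γ - β0) (t w) = (uu γ).eval (Complex.exp (-w)) + kk γ (Complex.exp w)) ∧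
      (∀ γ ∈ B, ∀ w : ℂ, w.re < c → DifferentiableAt ℂ (kk γ) (Complex.exp w)) ∧
      (∀ γ ∈ B, ∀ m ∈ (Q γ).support, ∀ w : ℂ, w.re < c →
        (MvPolynomial.coeff m (Q γ)).evalEval (t w).1 (t w).2 = gg γ m (Complex.exp w)) ∧
      c ≤ c1 := by
    refine Filter.Eventually.and ?_ (Filter.Eventually.and ?_ (Filter.Eventually.and ?_ ?_))
    · exact (Filter.eventually_all_finset B).2 fun γ _ => hev γ
    · refine (Filter.eventually_all_finset B).2 fun γ _ => near0 ?_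
      exact ((hkk γ).eventually_analyticAt.mono fun q hq => hq.differentiableAt).filter_mono
        nhdsWithin_le_nhds
    · exact (Filter.eventually_all_finset B).2 fun γ _ =>
        (Filter.eventually_all_finset _).2 fun m _ => hgg2 γ m
    · exact eventually_le_atBot c1
  obtain ⟨c2, hq1, hq2, hq3, hc2⟩ := hall.exists
  have hc20 : c2 ≤ c0 := hc2.trans hc1
  have htm : ∀ w : ℂ, w.re < c2 → t w ∈ TT F h := fun w hw =>
    htp.1 w (lt_of_lt_of_le hw hc20)
  have hsub : LH c2 ⊆ {w : ℂ | w.re < c0} := fun w hw => lt_of_lt_of_le hw hc20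
  have hsub1 : LH c2 ⊆ {w : ℂ | w.re < c1} := fun w hw => lt_of_lt_of_le hw hc2
  -- the coefficients
  have hdiffk : ∀ γ ∈ B, DifferentiableOn ℂ (fun w => Complex.exp (kk γ (Complex.exp w)))
      (LH c2) := by
    intro γ hγ w hw
    have h1 : DifferentiableAt ℂ (fun w => kk γ (Complex.exp w)) w :=
      (hq2 γ hγ w hw).comp w Complex.differentiableAt_exp
    exact h1.cexp.differentiableWithinAt
  have hcd : ∀ (u : ℂ[X]) (m : Fin a →₀ ℕ), DifferentiableOn ℂ
      (fun w => MvPolynomial.coeff m (PU B Q t uu kk u w)) (LH c2) := by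
    intro u m
    simp only [coeff_PU]
    refine DifferentiableOn.fun_sum fun γ hγ => DifferentiableOn.mul ?_ ?_
    · exact hdiffk γ (Finset.mem_filter.1 hγ).1
    · exact (diff_evalEval _ htp.2.1 htp.2.2.1).mono hsub
  have hcg : ∀ (u : ℂ[X]) (m : Fin a →₀ ℕ), Germ0 c2
      (fun w => MvPolynomial.coeff m (PU B Q t uu kk u w)) := by
    intro u m
    simp only [coeff_PU]
    refine Germ0.sum _ fun γ hγ => Germ0.mul ?_ ?_
    · exact ⟨fun q => Complex.exp (kk γ q), (hkk γ).cexp.meromorphicAt, fun _ _ => rfl⟩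
    · by_cases hm : m ∈ (Q γ).support
      · exact ⟨gg γ m, hgg γ m, fun w hw => hq3 γ (Finset.mem_filter.1 hγ).1 m hm w hw⟩
      · rw [MvPolynomial.notMem_support_iff.1 hm]
        simp only [evalEval_zero]
        exact Germ0.const _ _
  -- the exponent of `β1`
  have hu1 : uu β1 ≠ 0 := by
    intro h0
    apply hunb
    have hk := (hkk β1).continuousAt
    obtain ⟨M, hM⟩ : ∃ M : ℝ, ∀ᶠ q in 𝓝 (0 : ℂ), ‖kk β1 q‖ ≤ M := by
      refine ⟨‖kk β1 0‖ + 1, ?_⟩
      have h1 : ∀ᶠ q in 𝓝 (0 : ℂ), ‖kk β1 q‖ < ‖kk β1 0‖ + 1 :=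
        hk.norm.eventually_lt continuousAt_const (by linarith)
      exact h1.mono fun q hq => hq.le
    obtain ⟨c, hc, hc'⟩ := ((near0 (hM.filter_mono nhdsWithin_le_nhds)).and
      (eventually_le_atBot c2)).exists
    refine ⟨M, c, fun w hw => ?_⟩
    rw [hq1 β1 hβ1 w (lt_of_lt_of_le hw hc'), h0, eval_zero, zero_add]
    exact hc w hw
  have hnd : ∀ γ, uu γ ≠ 0 → 1 ≤ (uu γ).natDegree := by
    intro γ hγ
    by_contra hlt'
    have h1 : (uu γ).natDegree = 0 := by omega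
    apply hγ
    rw [Polynomial.eq_C_of_natDegree_eq_zero h1, huu γ, C_0]
  -- the sum
  have hdt : ∀ γ ∈ B, ∀ w ∈ LH c2, Complex.exp (dt S γ (t w)) =
      Complex.exp (dt S β0 (t w)) * (Complex.exp ((uu γ).eval (Complex.exp (-w))) *
        Complex.exp (kk γ (Complex.exp w))) := by
    intro γ hγ w hw
    rw [← Complex.exp_add, ← Complex.exp_add, ← hq1 γ hγ w hw, dt_sub]
    congr 1
    ring
  -- nonvanishing of the polynomial of `β1`
  have hn1 : ∃ w ∈ LH c2, PU B Q t uu kk (uu β1) w ≠ 0 := by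
    by_contra hcon
    push Not at hcon
    obtain ⟨p, hp, hp1⟩ := hd1
    apply hp1
    ext m
    rw [coeff_spec, MvPolynomial.coeff_zero]
    have h1 : ∀ p ∈ TT F h, ∑ γ ∈ B.filter (fun γ => uu γ = uu β1),
        (MvPolynomial.coeff m (Q γ)).evalEval p.1 p.2 * Complex.exp (dt S γ p) = 0 := by
      refine hIT F h hC _ ?_ t c0 htp hnc c2 hc20 ?_
      · exact HolT.sum _ fun γ _ => (HolT.reg (reg_evalEval _ _)).mul (HolT.dt hS.1 γ).exp
      · intro w hw
        have h2 := congrArg (MvPolynomial.coeff m) (hcon w hw)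
        rw [coeff_PU, MvPolynomial.coeff_zero] at h2
        have h3 : ∑ γ ∈ B.filter (fun γ => uu γ = uu β1),
            (MvPolynomial.coeff m (Q γ)).evalEval (t w).1 (t w).2 * Complex.exp (dt S γ (t w)) =
            Complex.exp (dt S β0 (t w)) * Complex.exp ((uu β1).eval (Complex.exp (-w))) *
            ∑ γ ∈ B.filter (fun γ => uu γ = uu β1), Complex.exp (kk γ (Complex.exp w)) *
              (MvPolynomial.coeff m (Q γ)).evalEval (t w).1 (t w).2 := by
          rw [Finset.mul_sum]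
          refine Finset.sum_congr rfl fun γ hγ => ?_
          obtain ⟨hγ1, hγ2⟩ := Finset.mem_filter.1 hγ
          rw [hdt γ hγ1 w hw, hγ2]
          ring
        rw [h3, h2, mul_zero]
    exact (hEX b F h S hC hS (B.filter (fun γ => uu γ = uu β1))
      (fun γ p => (MvPolynomial.coeff m (Q γ)).evalEval p.1 p.2)
      (fun γ _ => reg_evalEval _ _)).1 h1 β1 (Finset.mem_filter.2 ⟨hβ1, rfl⟩) p hp
  -- degrees
  have hdegU : ∀ u ≠ 0, ∀ w ∈ LH c2, PU B Q t uu kk u w = 0 ∨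
      (PU B Q t uu kk u w).totalDegree < D := by
    intro u hu w hw
    by_cases h0 : PU B Q t uu kk u w = 0
    · exact Or.inl h0
    right
    have hterm : ∀ γ ∈ B.filter (fun γ => uu γ = u),
        spec (Q γ) (t w).1 (t w).2 = 0 ∨ (spec (Q γ) (t w).1 (t w).2).totalDegree < D := by
      intro γ hγ
      obtain ⟨hγ1, hγ2⟩ := Finset.mem_filter.1 hγ
      refine hlt γ hγ1 ?_ (t w) (htm w hw)
      rintro rfl
      exact hu (hγ2 ▸ huβ0)
    have hD1 : 1 ≤ D := by
      by_contra hD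
      apply h0
      unfold PU
      refine Finset.sum_eq_zero fun γ hγ => ?_
      rcases hterm γ (by convert hγ) with h1 | h1
      · rw [h1, mul_zero]
      · omega
    have h2 : (PU B Q t uu kk u w).totalDegree ≤ D - 1 := by
      unfold PU
      refine MvPolynomial.totalDegree_finsetSum_le fun γ hγ => ?_
      refine (MvPolynomial.totalDegree_mul _ _).trans ?_
      rw [MvPolynomial.totalDegree_C, zero_add]
      rcases hterm γ (by convert hγ) with h1 | h1
      · rw [h1, MvPolynomial.totalDegree_zero]; exact Nat.zero_le _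
      · omega
    omega
  have hdeg0 : ∀ w ∈ LH c2, (PU B Q t uu kk 0 w).totalDegree ≤ D := by
    intro w hw
    unfold PU
    refine MvPolynomial.totalDegree_finsetSum_le fun γ hγ => ?_
    refine (MvPolynomial.totalDegree_mul _ _).trans ?_
    rw [MvPolynomial.totalDegree_C, zero_add]
    have hγ1 : γ ∈ B := (Finset.mem_filter.1 hγ).1
    by_cases hγ : γ = β0
    · rw [hγ]; exact hle _ (htm w hw)
    · rcases hlt γ hγ1 hγ _ (htm w hw) with h1 | h1
      · rw [h1, MvPolynomial.totalDegree_zero]; exact Nat.zero_le _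
      · exact h1.le
  have hhom0 : ∀ w ∈ LH c2, MvPolynomial.homogeneousComponent D (PU B Q t uu kk 0 w) =
      MvPolynomial.homogeneousComponent D (spec (Q β0) (t w).1 (t w).2) := by
    intro w hw
    unfold PU
    rw [map_sum, Finset.sum_eq_single β0]
    · rw [hkβ0]
      simp
    · intro γ hγ hγ0
      rw [MvPolynomial.homogeneousComponent_C_mul]
      have hγ1 : γ ∈ B := (Finset.mem_filter.1 hγ).1
      rcases hlt γ hγ1 hγ0 _ (htm w hw) with h1 | h1
      · rw [h1, map_zero, mul_zero]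
      · rw [MvPolynomial.homogeneousComponent_eq_zero _ _ h1, mul_zero]
    · intro h1
      exact absurd (Finset.mem_filter.2 ⟨hβ0, huβ0⟩) (by convert h1)
  have hn0 : ∃ w ∈ LH c2, MvPolynomial.homogeneousComponent D (PU B Q t uu kk 0 w) ≠ 0 := by
    by_contra hcon
    push Not at hcon
    obtain ⟨p, hp, hp1⟩ := hd0
    apply hp1
    ext m
    rw [MvPolynomial.coeff_homogeneousComponent, MvPolynomial.coeff_zero]
    split_ifs with hm
    · rw [coeff_spec]
      refine hIT F h hC (fun p => (MvPolynomial.coeff m (Q β0)).evalEval p.1 p.2)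
        (HolT.reg (reg_evalEval _ _)) t c0 htp hnc c2 hc20 ?_ p hp
      intro w hw
      have h2 := congrArg (MvPolynomial.coeff m) (hcon w hw)
      rw [hhom0 w hw, MvPolynomial.coeff_homogeneousComponent, if_pos hm, coeff_spec,
        MvPolynomial.coeff_zero] at h2
      exact h2
    · rfl
  -- the set of exponents
  set U : Finset ℂ[X] := (B.image uu).filter
    (fun u => u ≠ 0 ∧ ∃ w ∈ LH c2, PU B Q t uu kk u w ≠ 0) with hU
  have hUmem : ∀ u ∈ U, (∃ γ ∈ B, uu γ = u) ∧ u ≠ 0 ∧ ∃ w ∈ LH c2, PU B Q t uu kk u w ≠ 0 := by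
    intro u hu
    obtain ⟨h1, h2, h3⟩ := Finset.mem_filter.1 hu
    exact ⟨Finset.mem_image.1 h1, h2, h3⟩
  have hex : ∀ u : U, ∃ w0 ∈ LH c2, PU B Q t uu kk u w0 ≠ 0 ∧ ∀ w ∈ LH c2,
      (PU B Q t uu kk u w).totalDegree ≤ (PU B Q t uu kk u w0).totalDegree := by
    intro u
    obtain ⟨-, h1, h2⟩ := hUmem u u.2
    refine exists_max_deg (D := D) _ _ h2 fun w hw => ?_
    rcases hdegU u h1 w hw with h3 | h3
    · rw [h3, MvPolynomial.totalDegree_zero]; exact Nat.zero_le _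
    · exact h3.le
  choose wU hwU hwU0 hwUd using hex
  obtain ⟨w0, hw0, hw00⟩ := hn0
  obtain ⟨κ, hκ⟩ := exists_int_pt (MvPolynomial.homogeneousComponent D (PU B Q t uu kk 0 w0) *
    ∏ u : U, MvPolynomial.homogeneousComponent (PU B Q t uu kk u (wU u)).totalDegree
      (PU B Q t uu kk u (wU u))) (mul_ne_zero hw00
        (Finset.prod_ne_zero_iff.2 fun u _ => hc_ne _ (hwU0 u)))
  rw [map_mul, map_prod] at hκ
  have hκ0 := left_ne_zero_of_mul hκ
  have hκU := Finset.prod_ne_zero_iff.1 (right_ne_zero_of_mul hκ)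
  have : Nonempty U := ⟨⟨uu β1, Finset.mem_filter.2 ⟨Finset.mem_image_of_mem _ hβ1, hu1, hn1⟩⟩⟩
  obtain ⟨w, hw, N, hN⟩ := hXP a D U (fun u => (u : ℂ[X]))
    (fun u => (PU B Q t uu kk u (wU u)).totalDegree) c2 (|C0| * Real.exp c1)
    (PU B Q t uu kk 0) (fun u => PU B Q t uu kk u) (fun i => (a' i : ℝ)) b' hh κ
    Subtype.val_injective
    (by
      intro u
      obtain ⟨⟨γ, -, hγ⟩, -, -⟩ := hUmem u u.2
      show (u : ℂ[X]).coeff 0 = 0
      rw [← hγ]; exact huu γ)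
    (by
      intro u
      obtain ⟨⟨γ, -, hγ⟩, h1, -⟩ := hUmem u u.2
      show 1 ≤ (u : ℂ[X]).natDegree
      rw [← hγ] at h1 ⊢
      exact hnd γ h1)
    (by
      intro u
      obtain ⟨-, h1, -⟩ := hUmem u u.2
      rcases hdegU u h1 _ (hwU u) with h3 | h3
      · exact absurd h3 (hwU0 u)
      · exact h3)
    (fun j => (hE.2.1 j).mono hsub1)
    (by
      intro w hw
      have hw1 : w.re < c1 := hsub1 hw
      refine (hE.2.2.1 w hw1).trans ?_
      calc C0 * Real.exp w.re ≤ |C0| * Real.exp w.re :=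
            mul_le_mul_of_nonneg_right (le_abs_self _) (Real.exp_pos _).le
        _ ≤ |C0| * Real.exp c1 :=
            mul_le_mul_of_nonneg_left (Real.exp_le_exp.2 hw1.le) (abs_nonneg _))
    (fun m => ⟨hcg 0 m, hcd 0 m⟩) (fun u m => ⟨hcg u m, hcd u m⟩) hdeg0
    (fun u w hw => hwUd u w hw)
    (by
      obtain ⟨h1, h2⟩ := germ_hom (d := D) κ (PU B Q t uu kk 0) (hcg 0) (hcd 0)
      rcases hG01 c2 _ h2 h1 with h3 | h3
      · exact absurd (h3 w0 hw0) hκ0
      · exact h3)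
    (by
      intro u
      obtain ⟨h1, h2⟩ := germ_hom (d := (PU B Q t uu kk u (wU u)).totalDegree) κ
        (PU B Q t uu kk u) (hcg u) (hcd u)
      rcases hG01 c2 _ h2 h1 with h3 | h3
      · exact absurd (h3 _ (hwU u)) (hκU u (Finset.mem_univ _))
      · exact h3)
  have hw1 : w.re < c1 := hsub1 hw
  have h2 := exp_shift (hE.2.2.2 w hw1) N
  refine ⟨t w, htm w hw, pt (fun i => (a' i : ℝ)) b' hh w N, ?_, ?_⟩
  · intro i
    rw [← h2 i]
    unfold pt
    push_cast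
    rfl
  set x := pt (fun i => (a' i : ℝ)) b' hh w N with hx
  unfold EPv
  have h3 : ∑ β ∈ B, Complex.exp (dt S β (t w)) *
      MvPolynomial.eval x (spec (Q β) (t w).1 (t w).2) = Complex.exp (dt S β0 (t w)) *
      ∑ u ∈ B.image uu, Complex.exp (u.eval (Complex.exp (-w))) *
        MvPolynomial.eval x (PU B Q t uu kk u w) := by
    rw [← Finset.sum_fiberwise_of_maps_to (s := B) (t := B.image uu) (g := uu)
      (fun m hm => Finset.mem_image_of_mem _ hm), Finset.mul_sum]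
    refine Finset.sum_congr rfl fun u _ => ?_
    unfold PU
    rw [map_sum, Finset.mul_sum, Finset.mul_sum]
    refine Finset.sum_congr (by congr) fun γ hγ => ?_
    obtain ⟨hγ1, hγ2⟩ := Finset.mem_filter.1 hγ
    rw [hdt γ hγ1 w hw, hγ2, map_mul, MvPolynomial.eval_C]
    ring
  rw [h3]
  have h4 : ∑ u ∈ B.image uu, Complex.exp (u.eval (Complex.exp (-w))) *
        MvPolynomial.eval x (PU B Q t uu kk u w) =
      MvPolynomial.eval x (PU B Q t uu kk 0 w) + ∑ u ∈ U, Complex.exp (u.eval (Complex.exp (-w))) *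
        MvPolynomial.eval x (PU B Q t uu kk u w) := by
    have h5 : (0 : ℂ[X]) ∈ B.image uu := by
      rw [← huβ0]; exact Finset.mem_image_of_mem _ hβ0
    rw [← Finset.add_sum_erase _ _ h5]
    congr 1
    · simp
    · symm
      refine Finset.sum_subset ?_ ?_
      · intro u hu
        obtain ⟨h6, h7, -⟩ := Finset.mem_filter.1 hu
        exact Finset.mem_erase.2 ⟨h7, h6⟩
      · intro u hu hnu
        obtain ⟨h6, h7⟩ := Finset.mem_erase.1 hu
        have h8 : PU B Q t uu kk u w = 0 := by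
          by_contra h9
          exact hnu (Finset.mem_filter.2 ⟨h7, h6, w, hw, h9⟩)
        rw [h8, map_zero, mul_zero]
  rw [h4, ← Finset.sum_coe_sort U (fun u => Complex.exp (u.eval (Complex.exp (-w))) *
        MvPolynomial.eval x (PU B Q t uu kk u w)), hN, mul_zero]

end Pool.Agent.Q72.MX
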