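import Pool.Agent.Q72.MX.Stm
import Pool.Agent.W996.EC.Final

/-! Project MX (helper72): the explicit theorem with mixed coordinates (S_MM from S_M). -/

set_option autoImplicit false

namespace Pool.Agent.Q72.MX

open Filter Topology Polynomial Pool.Agent.W996.EC

theorem split_idx {n : ℕ} (J : Finset (Fin n)) : ∃ (a b : ℕ) (e : Fin a ⊕ Fin b ≃ Fin n),
    (∀ i, e (Sum.inl i) ∈ J) ∧ (∀ j, e (Sum.inr j) ∉ J) := by
  classical
  let e1 := (Fintype.equivFin {i // i ∈ J}).symm
  let e2 := (Fintype.equivFin {i // ¬ i ∈ J}).symm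
  refine ⟨_, _, (Equiv.sumCongr e1 e2).trans (Equiv.sumCompl (· ∈ J)), ?_, ?_⟩
  · intro i
    simp only [Equiv.trans_apply, Equiv.sumCongr_apply, Sum.map_inl, Equiv.sumCompl_apply_inl]
    exact (e1 i).2
  · intro i
    simp only [Equiv.trans_apply, Equiv.sumCongr_apply, Sum.map_inr, Equiv.sumCompl_apply_inr]
    exact (e2 i).2

section sort

variable {n a b : ℕ} (e : Fin a ⊕ Fin b ≃ Fin n)

/-- exponents of the first kind -/
noncomputable def al (m : Fin n →₀ ℕ) : Fin a →₀ ℕ :=
  Finsupp.equivFunOnFinite.symm fun i => m (e (Sum.inl i))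

/-- exponents of the second kind -/
def be (m : Fin n →₀ ℕ) : Fin b → ℤ := fun j => (m (e (Sum.inr j)) : ℤ)

theorem albe {m m' : Fin n →₀ ℕ} (h1 : al e m = al e m') (h2 : be e m = be e m') : m = m' := by
  ext i
  obtain ⟨s, rfl⟩ := e.surjective i
  rcases s with s | s
  · exact DFunLike.congr_fun h1 s
  · have := congrFun h2 s
    simpa [be] using this

open Classical in
/-- the coefficient of `x^β` -/
noncomputable def QQ (P : MvPolynomial (Fin n) ℂ[X][X]) (β : Fin b → ℤ) :
    MvPolynomial (Fin a) ℂ[X][X] :=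
  ∑ m ∈ P.support.filter (fun m => be e m = β), MvPolynomial.monomial (al e m)
    (MvPolynomial.coeff m P)

theorem spec_QQ (P : MvPolynomial (Fin n) ℂ[X][X]) (β : Fin b → ℤ) (z v : ℂ) :
    spec (QQ e P β) z v = ∑ m ∈ P.support.filter (fun m => be e m = β),
      MvPolynomial.monomial (al e m) ((MvPolynomial.coeff m P).evalEval z v) := by
  classical
  unfold QQ spec
  rw [map_sum]
  refine Finset.sum_congr (by congr) fun m _ => ?_
  rw [MvPolynomial.map_monomial]
  rfl

theorem coeff_QQ (P : MvPolynomial (Fin n) ℂ[X][X]) (m0 : Fin n →₀ ℕ) (z v : ℂ) :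
    MvPolynomial.coeff (al e m0) (spec (QQ e P (be e m0)) z v) =
      (MvPolynomial.coeff m0 P).evalEval z v := by
  classical
  rw [spec_QQ, MvPolynomial.coeff_sum]
  simp only [MvPolynomial.coeff_monomial]
  by_cases hm : m0 ∈ P.support
  · rw [Finset.sum_eq_single m0]
    · rw [if_pos rfl]
    · intro m hm' hne
      rw [if_neg]
      intro h
      exact hne (albe e h (Finset.mem_filter.1 hm').2)
    · intro h
      refine absurd ?_ h
      rw [Finset.mem_filter]
      exact ⟨hm, rfl⟩
  · rw [MvPolynomial.notMem_support_iff.1 hm, evalEval_zero]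
    refine Finset.sum_eq_zero fun m hm' => ?_
    rw [if_neg]
    intro h
    have := albe e h (Finset.mem_filter.1 hm').2
    rw [this] at hm'
    exact hm (Finset.mem_filter.1 hm').1

theorem eval_sort (P : MvPolynomial (Fin n) ℂ[X][X]) (z v : ℂ) (x : Fin n → ℂ) :
    MvPolynomial.eval x (spec P z v) = ∑ β ∈ P.support.image (be e),
      (∏ j, x (e (Sum.inr j)) ^ (β j).toNat) *
        MvPolynomial.eval (fun i => x (e (Sum.inl i))) (spec (QQ e P β) z v) := by
  classical
  have h1 : spec P z v = ∑ m ∈ P.support,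
      MvPolynomial.monomial m ((MvPolynomial.coeff m P).evalEval z v) := by
    conv_lhs => rw [P.as_sum]
    unfold spec
    rw [map_sum]
    refine Finset.sum_congr rfl fun m _ => ?_
    rw [MvPolynomial.map_monomial]
    rfl
  rw [h1, map_sum, ← Finset.sum_fiberwise_of_maps_to (s := P.support)
    (t := P.support.image (be e)) (g := be e) (fun m hm => Finset.mem_image_of_mem _ hm)]
  refine Finset.sum_congr rfl fun β _ => ?_
  rw [spec_QQ, map_sum, Finset.mul_sum]
  refine Finset.sum_congr rfl fun m hm => ?_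
  have hb : be e m = β := (Finset.mem_filter.1 hm).2
  rw [MvPolynomial.eval_monomial, MvPolynomial.eval_monomial,
    Finsupp.prod_fintype _ _ (fun _ => pow_zero _), Finsupp.prod_fintype _ _ (fun _ => pow_zero _),
    ← Equiv.prod_comp e, Fintype.prod_sum_type, ← hb]
  simp only [be, Int.toNat_natCast, al, Finsupp.equivFunOnFinite_symm_apply_apply]
  ring

end sort

theorem sum_div_iff {n : ℕ} (m a b : Fin n → ℂ) (hb : ∀ i, b i ≠ 0) (c : ℂ) :
    ∑ i, m i * (a i / b i) = c ↔
      ∑ i, m i * (a i * ∏ k ∈ Finset.univ.erase i, b k) = c * ∏ k, b k := by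
  have h1 : ∏ k, b k ≠ 0 := Finset.prod_ne_zero_iff.2 fun k _ => hb k
  rw [← mul_left_inj' h1, Finset.sum_mul]
  have h2 : ∀ i, m i * (a i / b i) * ∏ k, b k =
      m i * (a i * ∏ k ∈ Finset.univ.erase i, b k) := by
    intro i
    rw [← Finset.mul_prod_erase Finset.univ b (Finset.mem_univ i)]
    field_simp [hb i]
  rw [Finset.sum_congr rfl fun i _ => h2 i]

theorem t_MM (hM : S_M) : S_MM := by
  classical
  intro n J F H A B P hF hd hH hAi hBi hmul haddS hadd hx0 hdeg
  obtain ⟨a, b, e, he1, he2⟩ := split_idx J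
  have hres : S_res := Pool.Agent.W114.ECR.t_res
  have hcov : S_cov := Pool.Agent.W114.ECR.t_cov
  -- the good polynomial
  obtain ⟨ρH, hρH, hzH⟩ := finite_zeros hres hF hd hH
  choose ρA hρA hzA using fun i => finite_zeros hres hF hd (hAi i)
  choose ρB hρB hzB using fun i => finite_zeros hres hF hd (hBi i)
  obtain ⟨h, hdvd, hC⟩ := hcov F (ρH * ((∏ i, ρA i) * ∏ i, ρB i)) hF hd
    (mul_ne_zero hρH (mul_ne_zero (Finset.prod_ne_zero_iff.2 fun i _ => hρA i)
      (Finset.prod_ne_zero_iff.2 fun i _ => hρB i)))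
  have hh0 : ∀ z, h.eval z ≠ 0 → (ρH * ((∏ i, ρA i) * ∏ i, ρB i)).eval z ≠ 0 := by
    intro z hz h0
    obtain ⟨k, rfl⟩ := hdvd
    rw [eval_mul, h0, zero_mul] at hz
    exact hz rfl
  have hne : ∀ p ∈ TT F h, H.evalEval p.1 p.2 ≠ 0 ∧ (∀ i, (A i).evalEval p.1 p.2 ≠ 0) ∧
      ∀ i, (B i).evalEval p.1 p.2 ≠ 0 := by
    rintro p ⟨hp1, hp2⟩
    have h1 := hh0 p.1 hp2
    rw [eval_mul, eval_mul, eval_prod, eval_prod] at h1
    have h2 := left_ne_zero_of_mul h1
    have h3 := left_ne_zero_of_mul (right_ne_zero_of_mul h1)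
    have h4 := right_ne_zero_of_mul (right_ne_zero_of_mul h1)
    rw [Finset.prod_ne_zero_iff] at h3 h4
    exact ⟨fun h5 => h2 (hzH _ _ hp1 h5), fun i h5 => h3 i (Finset.mem_univ i) (hzA i _ _ hp1 h5),
      fun i h5 => h4 i (Finset.mem_univ i) (hzB i _ _ hp1 h5)⟩
  -- coefficients
  have hcoef : ∀ m : Fin n →₀ ℕ, (∀ p ∈ TT F h, spec (QQ e P (be e m)) p.1 p.2 = 0) →
      ∀ z v, F.evalEval z v = 0 → (MvPolynomial.coeff m P).evalEval z v = 0 := by
    intro m hm z v hzv
    refine dvd_vanish (vanish_dvd hres hC fun p hp => ?_) hzv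
    rw [← coeff_QQ e P m, hm p hp, MvPolynomial.coeff_zero]
  by_cases htwo : ∃ β1 ∈ P.support.image (be e), ∃ β2 ∈ P.support.image (be e), β1 ≠ β2 ∧
      (∃ p ∈ TT F h, spec (QQ e P β1) p.1 p.2 ≠ 0) ∧
      (∃ p ∈ TT F h, spec (QQ e P β2) p.1 p.2 ≠ 0)
  · -- two exponents
    obtain ⟨β1, hβ1, β2, hβ2, hne12, hq1, hq2⟩ := htwo
    set R : Fin a → ℂ × ℂ → ℂ := fun i p =>
      (A (e (Sum.inl i))).evalEval p.1 p.2 / (B (e (Sum.inl i))).evalEval p.1 p.2 with hR
    set S : Fin b → ℂ × ℂ → ℂ := fun j p =>
      (A (e (Sum.inr j))).evalEval p.1 p.2 / (B (e (Sum.inr j))).evalEval p.1 p.2 with hS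
    have hSI : AddIndep (TT F h) S := by
      refine ⟨fun j => ⟨A (e (Sum.inr j)), B (e (Sum.inr j)),
        fun p hp => ⟨(hne p hp).2.2 _, rfl⟩⟩, ?_⟩
      rintro m hm ⟨c, hc⟩
      set m' : Fin n → ℤ := fun i => Sum.elim (fun _ => 0) m (e.symm i) with hm'
      have hm'l : ∀ i, m' (e (Sum.inl i)) = 0 := fun i => by simp [hm']
      have hm'r : ∀ j, m' (e (Sum.inr j)) = m j := fun j => by simp [hm']
      have hm'0 : m' ≠ 0 := by
        intro h0
        apply hm
        funext j
        rw [← hm'r j, h0]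
        rfl
      have hm'J : ∀ i ∈ J, m' i = 0 := by
        intro i hi
        obtain ⟨s, rfl⟩ := e.surjective i
        rcases s with s | s
        · exact hm'l s
        · exact absurd hi (he2 s)
      obtain ⟨z, v, hzv, hAB, hsum⟩ := haddS m' hm'0 hm'J c
      apply hsum
      have hd2 : F ∣ ∑ i, C (C (m' i : ℂ)) * (A i * ∏ k ∈ Finset.univ.erase i, B k) -
          C (C c) * ∏ k, B k := by
        refine vanish_dvd hres hC fun p hp => ?_
        have h1 : ∑ i, (m' i : ℂ) * ((A i).evalEval p.1 p.2 / (B i).evalEval p.1 p.2) = c := by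
          rw [← hc p hp, ← Equiv.sum_comp e, Fintype.sum_sum_type]
          simp only [hm'l, hm'r, Int.cast_zero, zero_mul, Finset.sum_const_zero, zero_add]
          rfl
        rw [sum_div_iff _ _ _ (hne p hp).2.2] at h1
        rw [evalEval_sub, evalEval_finsetSum, evalEval_mul, evalEval_C, eval_C, evalEval_prod,
          sub_eq_zero, ← h1]
        refine Finset.sum_congr rfl fun i _ => ?_
        rw [evalEval_mul, evalEval_mul, evalEval_C, eval_C, evalEval_prod]
      have h2 := dvd_vanish hd2 hzv
      rw [evalEval_sub, evalEval_finsetSum, evalEval_mul, evalEval_C, eval_C, evalEval_prod,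
        sub_eq_zero] at h2
      rw [sum_div_iff _ _ _ (fun i => (hAB i).2), ← h2]
      refine Finset.sum_congr rfl fun i _ => ?_
      rw [evalEval_mul, evalEval_mul, evalEval_C, eval_C, evalEval_prod]
    obtain ⟨p, hp, x, hx1, hx2⟩ := hM a b F h R S hC
      (fun i => ⟨A (e (Sum.inl i)), B (e (Sum.inl i)), fun p hp => ⟨(hne p hp).2.2 _, rfl⟩⟩)
      (fun i p hp => div_ne_zero ((hne p hp).2.1 _) ((hne p hp).2.2 _)) hSI
      (P.support.image (be e)) (QQ e P) β1 β2 hβ1 hβ2 hne12 hq1 hq2
    set X' : Fin n → ℂ := fun i => Sum.elim x (fun j => Complex.exp (S j p)) (e.symm i) with hX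
    have hXl : ∀ i, X' (e (Sum.inl i)) = x i := fun i => by simp [hX]
    have hXr : ∀ j, X' (e (Sum.inr j)) = Complex.exp (S j p) := fun j => by simp [hX]
    refine ⟨p.1, p.2, X', hp.1, (hne p hp).1, fun i => ⟨(hne p hp).2.1 i, (hne p hp).2.2 i⟩,
      ?_, ?_, ?_⟩
    · intro i hi
      obtain ⟨s, rfl⟩ := e.surjective i
      rcases s with s | s
      · rw [hXl]; exact hx1 s
      · exact absurd hi (he2 s)
    · intro i hi
      obtain ⟨s, rfl⟩ := e.surjective i
      rcases s with s | s
      · exact absurd (he1 s) hi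
      · rw [hXr]
    · rw [eval_sort e]
      rw [← hx2]
      unfold EPv
      refine Finset.sum_congr rfl fun β hβ => ?_
      have hβ0 : ∀ j, 0 ≤ β j := by
        obtain ⟨m, -, rfl⟩ := Finset.mem_image.1 hβ
        intro j
        exact Int.natCast_nonneg _
      congr 1
      · simp only [hXr]
        unfold dt
        rw [Complex.exp_sum]
        refine Finset.prod_congr rfl fun j _ => ?_
        rw [← Complex.exp_nat_mul]
        congr 2
        have := Int.toNat_of_nonneg (hβ0 j)
        exact_mod_cast congrArg (Int.cast : ℤ → ℂ) this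
      · congr 1
        apply congrArg
        funext i
        exact hXl i
  · -- one exponent
    push Not at htwo
    -- which is zero
    have hzero : ∀ m : Fin n →₀ ℕ, (∃ z v, F.evalEval z v = 0 ∧
        (MvPolynomial.coeff m P).evalEval z v ≠ 0) → be e m = 0 := by
      intro m hm
      by_contra hb0
      obtain ⟨j0, hj0⟩ : ∃ j, be e m j ≠ 0 := by
        by_contra hcon
        push Not at hcon
        exact hb0 (funext hcon)
      obtain ⟨z, v, x, hzv, hx, hne0⟩ := hx0 (e (Sum.inr j0)) (he2 j0)
      apply hne0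
      rw [eval_sort e]
      refine Finset.sum_eq_zero fun β hβ => ?_
      by_cases hβj : (β j0).toNat = 0
      · -- then `β ≠ be m`
        have hβm : be e m ≠ β := by
          rintro rfl
          apply hj0
          simp only [be] at hβj ⊢
          omega
        have hm1 : be e m ∈ P.support.image (be e) := by
          refine Finset.mem_image_of_mem _ (MvPolynomial.mem_support_iff.2 ?_)
          rintro h0
          obtain ⟨z, v, -, h1⟩ := hm
          rw [h0, evalEval_zero] at h1
          exact h1 rfl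
        have h1 : ∃ p ∈ TT F h, spec (QQ e P (be e m)) p.1 p.2 ≠ 0 := by
          by_contra hcon
          push Not at hcon
          obtain ⟨z, v, hzv', h1⟩ := hm
          exact h1 (hcoef m hcon z v hzv')
        have h2 := htwo (be e m) hm1 β hβ hβm h1
        have h3 : spec (QQ e P β) z v = 0 := by
          ext k
          rw [coeff_spec, MvPolynomial.coeff_zero]
          refine dvd_vanish (vanish_dvd hres hC fun p hp => ?_) hzv
          rw [← coeff_spec, h2 p hp, MvPolynomial.coeff_zero]
        rw [h3, map_zero, mul_zero]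
      · rw [Finset.prod_eq_zero (Finset.mem_univ j0), zero_mul]
        rw [hx, zero_pow hβj]
    have heval : ∀ z v, F.evalEval z v = 0 → ∀ x : Fin n → ℂ,
        MvPolynomial.eval x (spec P z v) =
          MvPolynomial.eval (fun i => x (e (Sum.inl i))) (spec (QQ e P 0) z v) := by
      intro z v hzv x
      have hβ0 : ∀ β ≠ 0, spec (QQ e P β) z v = 0 := by
        intro β hβ
        rw [spec_QQ]
        refine Finset.sum_eq_zero fun m hm => ?_
        have h1 : (MvPolynomial.coeff m P).evalEval z v = 0 := by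
          by_contra h2
          apply hβ
          rw [← (Finset.mem_filter.1 hm).2]
          exact hzero m ⟨z, v, hzv, h2⟩
        rw [h1, map_zero]
      rw [eval_sort e]
      by_cases h0 : (0 : Fin b → ℤ) ∈ P.support.image (be e)
      · rw [Finset.sum_eq_single (0 : Fin b → ℤ)]
        · simp
        · intro β _ hβ
          rw [hβ0 β hβ, map_zero, mul_zero]
        · intro h1
          exact absurd h0 h1
      · rw [Finset.sum_eq_zero]
        · rw [spec_QQ, Finset.filter_eq_empty_iff.2, Finset.sum_empty, map_zero]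
          intro m hm hb
          exact h0 (by rw [← hb]; exact Finset.mem_image_of_mem _ hm)
        · intro β hβ
          have : β ≠ 0 := fun h1 => h0 (h1 ▸ hβ)
          rw [hβ0 β this, map_zero, mul_zero]
    -- extension of integer vectors
    have hext : ∀ m : Fin a → ℤ, m ≠ 0 → ∃ m' : Fin n → ℤ, m' ≠ 0 ∧ (∀ i, i ∉ J → m' i = 0) ∧
        (∀ i, m' (e (Sum.inl i)) = m i) ∧ ∀ j, m' (e (Sum.inr j)) = 0 := by
      intro m hm
      refine ⟨fun i => Sum.elim m (fun _ => 0) (e.symm i), ?_, ?_, fun i => by simp,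
        fun j => by simp⟩
      · intro h0
        apply hm
        funext i
        have := congrFun h0 (e (Sum.inl i))
        simpa using this
      · intro i hi
        obtain ⟨s, rfl⟩ := e.surjective i
        rcases s with s | s
        · exact absurd (he1 s) hi
        · simp
    have hHH : ¬ F ∣ H * ((∏ i, A i) * ∏ i, B i) := by
      intro hdv
      rcases hF.prime.dvd_or_dvd hdv with h1 | h1
      · exact hH h1
      rcases hF.prime.dvd_or_dvd h1 with h2 | h2
      · obtain ⟨i, -, hi⟩ := hF.prime.exists_mem_finset_dvd h2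
        exact hAi i hi
      · obtain ⟨i, -, hi⟩ := hF.prime.exists_mem_finset_dvd h2
        exact hBi i hi
    obtain ⟨z, v, x, hz, hHz, -, hx1, hx2⟩ := Pool.Agent.W996.EC.main a F
      (H * ((∏ i, A i) * ∏ i, B i))
      (fun i => A (e (Sum.inl i))) (fun i => B (e (Sum.inl i))) (QQ e P 0) hF hd hHH
      (fun i => hAi _) (fun i => hBi _)
      (by
        intro m hm c
        obtain ⟨m', hm'0, hm'J, hm'l, hm'r⟩ := hext m hm
        obtain ⟨z, v, hzv, hAB, hprod⟩ := hmul m' hm'0 hm'J c
        refine ⟨z, v, hzv, fun i => hAB _, ?_⟩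
        rw [← Equiv.prod_comp e, Fintype.prod_sum_type] at hprod
        simp only [hm'l, hm'r, zpow_zero, Finset.prod_const_one, mul_one] at hprod
        exact hprod)
      (by
        intro m hm c
        obtain ⟨m', hm'0, hm'J, hm'l, hm'r⟩ := hext m hm
        obtain ⟨z, v, x, hzv, hsum, hne0⟩ := hadd m' hm'0 hm'J c
        refine ⟨z, v, fun i => x (e (Sum.inl i)), hzv, ?_, ?_⟩
        · rw [← Equiv.sum_comp e, Fintype.sum_sum_type] at hsum
          simp only [hm'l, hm'r, Int.cast_zero, zero_mul, Finset.sum_const_zero, add_zero] at hsum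
          exact hsum
        · rw [← heval z v hzv]
          exact hne0)
      (by
        obtain ⟨z, v, hzv, hdeg⟩ := hdeg
        refine ⟨z, v, hzv, ?_⟩
        by_contra hlt
        have hlt' : (spec (QQ e P 0) z v).totalDegree = 0 := by omega
        rw [MvPolynomial.totalDegree_eq_zero_iff] at hlt'
        have h0 : (spec P z v).totalDegree = 0 := by
          rw [MvPolynomial.totalDegree_eq_zero_iff]
          intro m hm i
          rw [MvPolynomial.mem_support_iff, coeff_spec] at hm
          have hb := hzero m ⟨z, v, hzv, hm⟩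
          obtain ⟨s, rfl⟩ := e.surjective i
          rcases s with s | s
          · have h1 := coeff_QQ e P m z v
            rw [hb] at h1
            have h2 := hlt' (al e m) (MvPolynomial.mem_support_iff.2 (by rw [h1]; exact hm)) s
            exact h2
          · have h1 := congrFun hb s
            simpa [be] using h1
        omega)
    have hHz' : (evalEvalRingHom z v) (H * ((∏ i, A i) * ∏ i, B i)) ≠ 0 := hHz
    rw [map_mul, map_mul, map_prod, map_prod] at hHz'
    have h2 := left_ne_zero_of_mul hHz'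
    have h3 := left_ne_zero_of_mul (right_ne_zero_of_mul hHz')
    have h4 := right_ne_zero_of_mul (right_ne_zero_of_mul hHz')
    rw [Finset.prod_ne_zero_iff] at h3 h4
    set X' : Fin n → ℂ := fun i => Sum.elim x (fun j =>
      Complex.exp ((A (e (Sum.inr j))).evalEval z v / (B (e (Sum.inr j))).evalEval z v))
      (e.symm i) with hX
    have hXl : ∀ i, X' (e (Sum.inl i)) = x i := fun i => by simp [hX]
    have hXr : ∀ j, X' (e (Sum.inr j)) = Complex.exp ((A (e (Sum.inr j))).evalEval z v /
      (B (e (Sum.inr j))).evalEval z v) := fun j => by simp [hX]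
    refine ⟨z, v, X', hz, h2, fun i => ⟨h3 i (Finset.mem_univ i), h4 i (Finset.mem_univ i)⟩,
      ?_, ?_, ?_⟩
    · intro i hi
      obtain ⟨s, rfl⟩ := e.surjective i
      rcases s with s | s
      · rw [hXl]; exact hx1 s
      · exact absurd hi (he2 s)
    · intro i hi
      obtain ⟨s, rfl⟩ := e.surjective i
      rcases s with s | s
      · exact absurd (he1 s) hi
      · rw [hXr]
    · rw [heval z v hz]
      have : (fun i => X' (e (Sum.inl i))) = x := funext hXl
      rw [this]
      exact hx2

end Pool.Agent.Q72.MX
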