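import Pool.Agent.Q72.MX.Stm
import Pool.Agent.W333.ECV.D

/-! Project MX (helper72): from the explicit form to the form for varieties (S_VM from S_MM).
Adapted from `Pool.Agent.W333.ECV.t_V`. -/

set_option autoImplicit false
set_option linter.all false

namespace Pool.Agent.Q72.MX

open Polynomial Pool.Agent.W996.EC Pool.Agent.W333.ECV

/-- the other coordinate of the pair -/
def ot {n : ℕ} (J : Finset (Fin n)) (i : Fin n) : Fin n ⊕ Fin n :=
  if i ∈ J then Sum.inl i else Sum.inr i

/-- the involution -/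
def sg {n : ℕ} (J : Finset (Fin n)) : Fin n ⊕ Fin n → Fin n ⊕ Fin n :=
  Sum.elim (ot J) (bs J)

theorem sg_sg {n : ℕ} (J : Finset (Fin n)) (i : Fin n ⊕ Fin n) : sg J (sg J i) = i := by
  rcases i with i | i <;> by_cases h : i ∈ J <;> simp [sg, ot, bs, h]

theorem sg_comp {n : ℕ} (J : Finset (Fin n)) : sg J ∘ sg J = id := funext (sg_sg J)

theorem t_VM (h1 : S_res) (h2 : S_cov) (h3 : S_kern) (h4 : S_plane) (h5 : S_MM) : S_VM := by
  classical
  intro n P V hP hV hadd hmul hdim J hproj H hH
  obtain ⟨p0, hp0, hHp0⟩ := hH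
  have hp0' := hp0
  rw [hV] at hp0'
  obtain ⟨hp0P, hp0n⟩ := hp0'
  rcases Nat.eq_zero_or_pos n with hn | hn
  · subst hn
    have e1 : (Sum.elim (fun i => i.elim0) (fun i : Fin 0 => Complex.exp (i.elim0)) :
        Fin 0 ⊕ Fin 0 → ℂ) = p0 := by
      funext i
      rcases i with i | i <;> exact i.elim0
    refine ⟨fun i => i.elim0, fun f hf => ?_, ?_⟩
    · rw [e1]; exact hp0P f hf
    · have e2 : (fun j : Fin 0 => (Sum.elim (fun i : Fin 0 => i.elim0)
          (fun i : Fin 0 => Complex.exp (i.elim0)) : Fin 0 ⊕ Fin 0 → ℂ) (bs J j)) =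
          fun j => p0 (bs J j) := by
        funext i; exact i.elim0
      rw [e2]; exact hHp0
  -- the function field
  obtain ⟨L, iL, aL, ξ, hξ, hgen⟩ := exists_field P hP
  set x : Fin n → L := fun i => ξ (ot J i) with hx
  set y : Fin n → L := fun i => ξ (bs J i) with hy
  have hxy : Sum.elim x y = ξ ∘ sg J := by
    funext i
    rcases i with i | i <;> rfl
  have hren : ∀ f : MvPolynomial (Fin n ⊕ Fin n) ℂ,
      MvPolynomial.aeval (Sum.elim x y) (MvPolynomial.rename (sg J) f) =
        MvPolynomial.aeval ξ f := by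
    intro f
    rw [hxy, MvPolynomial.aeval_rename, Function.comp_assoc, sg_comp, Function.comp_id]
  have hVmem : ∀ p : Fin n ⊕ Fin n → ℂ, p ∈ V ↔
      (∀ f ∈ P, MvPolynomial.eval p f = 0) ∧ ∀ j : Fin n, p (Sum.inr j) ≠ 0 := by
    intro p; rw [hV]; rfl
  have hPV : ∀ f, f ∈ P ↔ ∀ p ∈ V, MvPolynomial.eval p f = 0 := by
    intro f
    constructor
    · intro hf p hp
      exact ((hVmem p).mp hp).1 f hf
    · intro hf
      refine nullst P hP (∏ i : Fin n, MvPolynomial.X (Sum.inr i)) ?_ f ?_
      · intro hg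
        have := hp0P _ hg
        rw [map_prod, Finset.prod_eq_zero_iff] at this
        obtain ⟨i, -, hi⟩ := this
        rw [MvPolynomial.eval_X] at hi
        exact hp0n i hi
      · intro p hp hg
        apply hf
        rw [hVmem]
        refine ⟨hp, fun j hj => hg ?_⟩
        rw [map_prod]
        apply Finset.prod_eq_zero (Finset.mem_univ j)
        rw [MvPolynomial.eval_X]; exact hj
  have hξV : ∀ f, MvPolynomial.aeval ξ f = 0 ↔ ∀ p ∈ V, MvPolynomial.eval p f = 0 :=
    fun f => (hξ f).trans (hPV f)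
  have hmulL : ∀ m : Fin n → ℤ, m ≠ 0 → ∀ c : ℂ,
      ∏ i, ξ (Sum.inr i) ^ (m i).toNat ≠
        algebraMap ℂ L c * ∏ i, ξ (Sum.inr i) ^ (-(m i)).toNat := by
    intro m hm c h
    obtain ⟨p, hp, hpc⟩ := hmul m hm c
    have h6 := (hξV (∏ i : Fin n, MvPolynomial.X (Sum.inr i) ^ (m i).toNat -
      MvPolynomial.C c * ∏ i : Fin n, MvPolynomial.X (Sum.inr i) ^ (-(m i)).toNat)).mp (by
        rw [map_sub, map_mul, map_prod, map_prod, MvPolynomial.aeval_C, sub_eq_zero]
        simp only [map_pow, MvPolynomial.aeval_X]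
        exact h) p hp
    rw [map_sub, map_mul, map_prod, map_prod, MvPolynomial.eval_C, sub_eq_zero] at h6
    simp only [map_pow, MvPolynomial.eval_X] at h6
    apply hpc
    have hpn := ((hVmem p).mp hp).2
    have e1 : ∀ j : Fin n, p (Sum.inr j) ^ (m j) =
        p (Sum.inr j) ^ (m j).toNat / p (Sum.inr j) ^ (-(m j)).toNat := by
      intro j
      conv_lhs => rw [← Int.toNat_sub_toNat_neg (m j)]
      rw [zpow_sub₀ (hpn j), zpow_natCast, zpow_natCast]
    rw [Finset.prod_congr rfl (fun j _ => e1 j), Finset.prod_div_distrib, h6]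
    refine mul_div_cancel_right₀ _ ?_
    exact Finset.prod_ne_zero_iff.mpr fun j _ => pow_ne_zero _ (hpn j)
  have haddL : ∀ m : Fin n → ℤ, m ≠ 0 → ∀ c : ℂ,
      ∑ i, (m i : L) * ξ (Sum.inl i) ≠ algebraMap ℂ L c := by
    intro m hm c h
    obtain ⟨p, hp, hpc⟩ := hadd m hm c
    have h6 := (hξV (∑ i : Fin n, MvPolynomial.C (m i : ℂ) * MvPolynomial.X (Sum.inl i) -
      MvPolynomial.C c)).mp (by
        rw [map_sub, map_sum, MvPolynomial.aeval_C, sub_eq_zero]
        simp only [map_mul, MvPolynomial.aeval_C, MvPolynomial.aeval_X, map_intCast]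
        exact h) p hp
    rw [map_sub, map_sum, MvPolynomial.eval_C, sub_eq_zero] at h6
    simp only [map_mul, MvPolynomial.eval_C, MvPolynomial.eval_X] at h6
    exact hpc h6
  have htrr : ∀ i0 : Fin n, Transcendental ℂ (ξ (Sum.inr i0)) := by
    intro i0 halg
    obtain ⟨c, hc⟩ := alg_const halg
    refine hmulL (Pi.single i0 1) ?_ c ?_
    · intro h
      have := congrFun h i0
      rw [Pi.single_eq_same] at this
      exact one_ne_zero this
    · have e1 : ∏ i, ξ (Sum.inr i) ^ ((Pi.single i0 1 : Fin n → ℤ) i).toNat =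
          ξ (Sum.inr i0) := by
        rw [Finset.prod_eq_single i0]
        · simp
        · intro j _ hj
          rw [Pi.single_eq_of_ne hj]; simp
        · intro h; exact absurd (Finset.mem_univ _) h
      have e2 : ∏ i, ξ (Sum.inr i) ^ (-((Pi.single i0 1 : Fin n → ℤ) i)).toNat = 1 := by
        apply Finset.prod_eq_one
        intro j _
        by_cases hj : j = i0
        · subst hj; simp
        · rw [Pi.single_eq_of_ne hj]; simp
      rw [e1, e2, mul_one, hc]
  have htrl : ∀ i0 : Fin n, Transcendental ℂ (ξ (Sum.inl i0)) := by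
    intro i0 halg
    obtain ⟨c, hc⟩ := alg_const halg
    refine haddL (Pi.single i0 1) ?_ c ?_
    · intro h
      have := congrFun h i0
      rw [Pi.single_eq_same] at this
      exact one_ne_zero this
    · rw [Finset.sum_eq_single i0]
      · rw [hc]; simp
      · intro j _ hj
        rw [Pi.single_eq_of_ne hj]; simp
      · intro h; exact absurd (Finset.mem_univ _) h
  have htr : ∀ s : Fin n ⊕ Fin n, Transcendental ℂ (ξ s) := by
    rintro (i | i)
    · exact htrl i
    · exact htrr i
  have hne0 : ∀ s : Fin n ⊕ Fin n, ξ s ≠ 0 := by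
    intro s h
    apply htr s
    rw [h]
    exact isAlgebraic_zero
  have hdepL : ∀ i j, ∃ f : MvPolynomial (Fin 2) ℂ, f ≠ 0 ∧
      MvPolynomial.aeval ![y i, y j] f = 0 := by
    intro i j
    obtain ⟨f, hf, hf0⟩ := hproj i j
    refine ⟨f, hf, ?_⟩
    have h6 := (hξV (MvPolynomial.rename ![bs J i, bs J j] f)).mpr (by
      intro p hp
      rw [MvPolynomial.eval_rename]
      have e1 : (p ∘ ![bs J i, bs J j] : Fin 2 → ℂ) = ![p (bs J i), p (bs J j)] := by
        funext k; fin_cases k <;> rfl
      rw [e1]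
      exact hf0 p hp)
    rw [MvPolynomial.aeval_rename] at h6
    have e2 : (ξ ∘ ![bs J i, bs J j] : Fin 2 → L) = ![y i, y j] := by
      funext k; fin_cases k <;> rfl
    rwa [e2] at h6
  obtain ⟨J0, hJc, hJ⟩ := hdim
  have hinjs : Function.Injective (sg J) := fun a b hab => by
    rw [← sg_sg J a, ← sg_sg J b, hab]
  set J1 : Finset (Fin n ⊕ Fin n) := J0.image (sg J) with hJ1
  have hJ1c : n ≤ J1.card := by
    rw [hJ1, Finset.card_image_of_injective _ hinjs]; exact hJc
  have hJi : AlgebraicIndependent ℂ (fun j : J1 => Sum.elim x y j) := by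
    rw [algebraicIndependent_iff]
    intro f hf
    have h6 := hJ (MvPolynomial.rename (sg J) (MvPolynomial.rename Subtype.val f)) (by
      intro k hk
      have := MvPolynomial.vars_rename (sg J) _ hk
      obtain ⟨a, ha, rfl⟩ := Finset.mem_image.mp this
      have := MvPolynomial.vars_rename Subtype.val f ha
      obtain ⟨b, -, rfl⟩ := Finset.mem_image.mp this
      obtain ⟨c, hc, hcb⟩ := Finset.mem_image.mp b.2
      rw [← hcb, sg_sg]
      exact hc) ((hξV _).mp (by
        rw [MvPolynomial.aeval_rename, ← hxy, MvPolynomial.aeval_rename]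
        exact hf))
    have h7 := MvPolynomial.rename_injective _ hinjs (h6.trans (map_zero _).symm)
    exact MvPolynomial.rename_injective _ Subtype.val_injective (by rw [h7, map_zero])
  obtain ⟨J', hJ'c, hJ'⟩ := trd (x := x) (y := y) (by
    intro u
    obtain ⟨f, g, hg, hu⟩ := hgen u
    refine ⟨MvPolynomial.rename (sg J) f, MvPolynomial.rename (sg J) g, ?_, ?_⟩
    · rw [hren]; exact hg
    · rw [hren, hren]; exact hu) hdepL J1 hJ1c hJi
  obtain ⟨F, z0, v0, hF, hFd, hker, hz0, hv0, hquot⟩ := h4 L n y ⟨⟨0, hn⟩, htr _⟩ hdepL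
  set K := IntermediateField.adjoin ℂ (Set.range y) with hK
  obtain ⟨φ, hφL⟩ : ∃ φ : ℂ[X][X] →+* K, ∀ G, algebraMap K L (φ G) = aevalAeval z0 v0 G :=
    ⟨(aevalAeval (R := ℂ) (⟨z0, hz0⟩ : K) (⟨v0, hv0⟩ : K)).toRingHom,
      fun G => aevalAeval_sub K hz0 hv0 G⟩
  have hinj : Function.Injective (algebraMap K L) := (algebraMap K L).injective
  have hφ : ∀ G, φ G = 0 ↔ F ∣ G := by
    intro G
    rw [← hker, ← hφL, map_eq_zero_iff _ hinj]
  have hd : ∀ u : K, ∃ A B : ℂ[X][X], φ B ≠ 0 ∧ u * φ B = φ A := by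
    intro u
    obtain ⟨A, B, hB, h⟩ := hquot u.1 u.2
    refine ⟨A, B, fun h0 => hB ?_, hinj ?_⟩
    · rw [← hφL, h0, map_zero]
    · rw [map_mul, hφL, hφL]; exact h
  set yK : Fin n → K := fun i => ⟨y i, IntermediateField.subset_adjoin _ _ ⟨i, rfl⟩⟩ with hyK
  have hyKL : ∀ i, algebraMap K L (yK i) = y i := fun i => rfl
  choose A B hB hyAB using fun i => hd (yK i)
  have hyK0 : ∀ i, yK i ≠ 0 := by
    intro i h
    apply hne0 (bs J i)
    show y i = 0
    rw [← hyKL, h, map_zero]
  have hA : ∀ i, φ (A i) ≠ 0 := by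
    intro i
    rw [← hyAB]
    exact mul_ne_zero (hyK0 i) (hB i)
  have hcc : (algebraMap K L).comp (φ.comp (C.comp C)) = algebraMap ℂ L := by
    apply RingHom.ext
    intro a
    show algebraMap K L (φ (C (C a))) = _
    rw [hφL]
    have : (C (C a) : ℂ[X][X]) = algebraMap ℂ ℂ[X][X] a := rfl
    rw [this, AlgHom.commutes]
  have hccK : φ.comp (C.comp C) = algebraMap ℂ K := by
    apply RingHom.ext
    intro a
    apply hinj
    exact DFunLike.congr_fun hcc a
  have hfS : ∀ f, MvPolynomial.aeval x (fS (φ.comp (C.comp C)) yK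
      (MvPolynomial.rename (sg J) f)) = MvPolynomial.aeval ξ f := by
    intro f
    rw [aeval_fS, hcc, ← hren, MvPolynomial.aeval_def]
    rfl
  -- evaluation at the exponential point
  have hfin : ∀ (u w z : Fin n → ℂ), (∀ i ∈ J, z i = u i ∧ Complex.exp (z i) = w i) →
      (∀ i, i ∉ J → z i = w i ∧ Complex.exp (z i) = u i) →
      (∀ f : MvPolynomial (Fin n ⊕ Fin n) ℂ,
        MvPolynomial.eval (Sum.elim z (fun i : Fin n => Complex.exp (z i))) f =
          MvPolynomial.eval (Sum.elim u w) (MvPolynomial.rename (sg J) f)) ∧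
      (fun j => (Sum.elim z (fun i : Fin n => Complex.exp (z i)) : Fin n ⊕ Fin n → ℂ) (bs J j)) =
        w := by
    intro u w z h6 h7
    have e1 : (Sum.elim u w ∘ sg J : Fin n ⊕ Fin n → ℂ) =
        Sum.elim z (fun i : Fin n => Complex.exp (z i)) := by
      funext i
      rcases i with i | i
      · by_cases hi : i ∈ J
        · simp [sg, ot, hi, (h6 i hi).1]
        · simp [sg, ot, hi, (h7 i hi).1]
      · by_cases hi : i ∈ J
        · simp [sg, bs, hi, (h6 i hi).2]
        · simp [sg, bs, hi, (h7 i hi).2]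
    constructor
    · intro f
      rw [MvPolynomial.eval_rename, e1]
    · funext j
      by_cases hj : j ∈ J
      · simp [bs, hj, (h6 j hj).2]
      · simp [bs, hj, (h7 j hj).1]
  by_cases hxi : AlgebraicIndependent K x
  · -- the case of full fibres
    have key : ∀ f ∈ P, fS (RingHom.id ℂ) (fun j => p0 (bs J j))
        (MvPolynomial.rename (sg J) f) = 0 := by
      intro f hf
      have h6 : fS (φ.comp (C.comp C)) yK (MvPolynomial.rename (sg J) f) = 0 := by
        rw [algebraicIndependent_iff] at hxi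
        apply hxi
        rw [hfS]
        exact (hξ f).mpr hf
      ext u
      rw [coeff_fS, MvPolynomial.coeff_zero]
      have h7 := congrArg (MvPolynomial.coeff u) h6
      rw [coeff_fS, MvPolynomial.coeff_zero] at h7
      set q := MvPolynomial.coeff u (MvPolynomial.sumAlgEquiv ℂ (Fin n) (Fin n)
        (MvPolynomial.rename (sg J) f)) with hq
      have h8 := congrArg (algebraMap K L) h7
      rw [MvPolynomial.hom_eval₂, hcc, map_zero] at h8
      have h9 : MvPolynomial.aeval ξ (MvPolynomial.rename (bs J) q) = 0 := by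
        rw [MvPolynomial.aeval_rename, MvPolynomial.aeval_def]
        exact h8
      have h10 := (hξV _).mp h9 p0 hp0
      rw [MvPolynomial.eval_rename] at h10
      exact h10
    set z : Fin n → ℂ := fun i => if i ∈ J then Complex.log (p0 (Sum.inr i)) else
      p0 (Sum.inl i) with hz
    set u : Fin n → ℂ := fun i => if i ∈ J then z i else Complex.exp (z i) with hu
    obtain ⟨h6, h7⟩ := hfin u (fun j => p0 (bs J j)) z (by
      intro i hi
      refine ⟨by simp [hu, hi], ?_⟩
      simp only [hz, if_pos hi, bs]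
      exact Complex.exp_log (hp0n i)) (by
      intro i hi
      refine ⟨by simp [hz, hi, bs], by simp [hu, hi]⟩)
    refine ⟨z, ?_, ?_⟩
    · intro f hf
      rw [h6 f]
      have h8 := eval_fS (RingHom.id ℂ) u (fun j => p0 (bs J j)) (MvPolynomial.rename (sg J) f)
      rw [key f hf, map_zero] at h8
      exact h8.symm
    · rw [h7]
      exact hHp0
  -- the hypersurface case
  obtain ⟨G, hG, hGx⟩ := h3 K L n x hxi ⟨J', hJ'c, hJ'⟩
  obtain ⟨E, PP, hE, hPP⟩ := clear hd G
  have hDf : ∀ f ∈ P, ∃ D : ℂ[X][X], φ D ≠ 0 ∧ ∀ (z v : ℂ) (u : Fin n → ℂ),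
      F.evalEval z v = 0 → (∀ i, (B i).evalEval z v ≠ 0) → D.evalEval z v ≠ 0 →
      MvPolynomial.eval u (spec PP z v) = 0 →
      MvPolynomial.eval (Sum.elim u (fun i => (A i).evalEval z v / (B i).evalEval z v))
        (MvPolynomial.rename (sg J) f) = 0 := by
    intro f hf
    have h6 : G ∣ fS (φ.comp (C.comp C)) yK (MvPolynomial.rename (sg J) f) := by
      rw [← hGx, hfS]
      exact (hξ f).mpr hf
    obtain ⟨q, hq⟩ := h6
    obtain ⟨D, Q, hD, hQ⟩ := clear hd q
    refine ⟨E * D, ?_, fun z v u hz hv hED hu => ?_⟩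
    · rw [map_mul]; exact mul_ne_zero hE hD
    · have h7 := transfer hφ hB hyAB (MvPolynomial.rename (sg J) f) (E * D) (PP * Q) (by
        rw [hq, map_mul φ, map_mul MvPolynomial.C, map_mul (MvPolynomial.map φ), ← hPP, ← hQ]
        ring) z v hz hv
      have h8 := congrArg (MvPolynomial.eval u) h7
      rw [map_mul, MvPolynomial.eval_C, eval_fS] at h8
      have h9 : MvPolynomial.eval u (spec (PP * Q) z v) = 0 := by
        have : spec (PP * Q) z v = spec PP z v * spec Q z v := by
          unfold spec; rw [map_mul]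
        rw [this, map_mul, hu, zero_mul]
      rw [h9] at h8
      exact (mul_eq_zero.mp h8).resolve_left hED
  choose! D hD1 hD2 using hDf
  obtain ⟨s, hs⟩ : P.FG := IsNoetherian.noetherian P
  have hsP : ∀ f ∈ s, f ∈ P := fun f hf => by rw [← hs]; exact Ideal.subset_span hf
  obtain ⟨N, hN, hN2⟩ := numer hφ hB hyAB H (by
    intro h0
    have h6 := congrArg (algebraMap K L) h0
    rw [MvPolynomial.hom_eval₂, hcc, map_zero] at h6
    have h9 : MvPolynomial.aeval ξ (MvPolynomial.rename (bs J) H) = 0 := by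
      rw [MvPolynomial.aeval_rename, MvPolynomial.aeval_def]
      exact h6
    have h10 := (hξV _).mp h9 p0 hp0
    rw [MvPolynomial.eval_rename] at h10
    exact hHp0 h10)
  obtain ⟨z, v, u, hz, hH', hAB, hexp, hexp2, hPu⟩ := h5 n J F ((∏ f ∈ s, D f) * N) A B PP hF hFd
    (by
      rw [← hφ, map_mul, map_prod]
      exact mul_ne_zero (Finset.prod_ne_zero_iff.mpr fun f hf => hD1 f (hsP f hf)) hN)
    (fun i => by rw [← hφ]; exact hA i) (fun i => by rw [← hφ]; exact hB i)
    (by
      intro m hm hmJ c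
      by_contra hcon
      push Not at hcon
      have h6 := multiplicative h1 h2 hF hFd hφ A B hA hB yK hyAB m c
        (fun z v hz hv => hcon z v hz hv)
      have h7 := congrArg (algebraMap K L) h6
      rw [map_mul, map_prod, map_prod] at h7
      simp only [map_pow, hyKL] at h7
      refine hmulL m hm c ?_
      have e1 : ∀ k : Fin n → ℕ, (∀ i, i ∉ J → k i = 0) →
          ∏ i, ξ (Sum.inr i) ^ k i = ∏ i, y i ^ k i := by
        intro k hk
        refine Finset.prod_congr rfl fun i _ => ?_
        by_cases hi : i ∈ J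
        · simp [hy, bs, hi]
        · rw [hk i hi, pow_zero, pow_zero]
      rw [e1 (fun i => (m i).toNat) (fun i hi => by rw [hmJ i hi]; rfl),
        e1 (fun i => (-(m i)).toNat) (fun i hi => by rw [hmJ i hi]; rfl), h7]
      congr 1
      exact DFunLike.congr_fun hcc c)
    (by
      intro m hm hmJ c
      by_contra hcon
      push Not at hcon
      -- the linear form takes the value `c` on the curve
      set Lf : MvPolynomial (Fin n) ℂ := ∑ i, MvPolynomial.C (m i : ℂ) * MvPolynomial.X i -
        MvPolynomial.C c with hLf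
      have h6 : MvPolynomial.eval₂ (φ.comp (C.comp C)) yK Lf = 0 := by
        by_contra h0
        obtain ⟨N', hN', hN'2⟩ := numer hφ hB hyAB Lf h0
        have h7 : ¬ F ∣ N' * ∏ i, (A i * B i) := by
          rw [← hφ, map_mul, map_prod]
          refine mul_ne_zero hN' (Finset.prod_ne_zero_iff.mpr fun i _ => ?_)
          rw [map_mul]
          exact mul_ne_zero (hA i) (hB i)
        have h8 : ∃ z v : ℂ, F.evalEval z v = 0 ∧ (N' * ∏ i, (A i * B i)).evalEval z v ≠ 0 := by
          by_contra hcc2
          push Not at hcc2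
          exact h7 (nss h1 h2 hF hFd hcc2)
        obtain ⟨z, v, hz, hzv⟩ := h8
        have h9 : (evalEvalRingHom z v) (N' * ∏ i, (A i * B i)) ≠ 0 := hzv
        rw [map_mul, map_prod] at h9
        have h10 := left_ne_zero_of_mul h9
        have h11 := right_ne_zero_of_mul h9
        rw [Finset.prod_ne_zero_iff] at h11
        have h12 : ∀ i, (A i).evalEval z v ≠ 0 ∧ (B i).evalEval z v ≠ 0 := by
          intro i
          have h13 := h11 i (Finset.mem_univ i)
          rw [map_mul] at h13
          exact ⟨left_ne_zero_of_mul h13, right_ne_zero_of_mul h13⟩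
        have h14 := hN'2 z v hz (fun i => (h12 i).2) h10
        apply h14
        rw [hLf, map_sub, map_sum, MvPolynomial.eval_C]
        simp only [map_mul, MvPolynomial.eval_C, MvPolynomial.eval_X]
        rw [hcon z v hz h12, sub_self]
      have h7 := congrArg (algebraMap K L) h6
      rw [MvPolynomial.hom_eval₂, hcc, map_zero] at h7
      refine haddL m hm c ?_
      rw [hLf, MvPolynomial.eval₂_sub, MvPolynomial.eval₂_sum, MvPolynomial.eval₂_C,
        sub_eq_zero] at h7
      rw [← h7]
      refine Finset.sum_congr rfl fun i _ => ?_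
      rw [MvPolynomial.eval₂_mul, MvPolynomial.eval₂_C, MvPolynomial.eval₂_X, map_intCast]
      by_cases hi : i ∈ J
      · rw [hmJ i hi]; simp
      · congr 1
        show ξ (Sum.inl i) = ξ (bs J i)
        simp [bs, hi])
    (by
      intro m hm hmJ c
      by_contra hcon
      push Not at hcon
      have h6 := additive h1 h2 hF hFd hφ x G hG hGx PP E hE hPP m hm c
        (fun z v u hz hu => hcon z v u hz hu)
      refine haddL m hm c ?_
      have e1 : ∑ i, (m i : L) * ξ (Sum.inl i) = ∑ i, (m i : L) * x i := by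
        refine Finset.sum_congr rfl fun i _ => ?_
        by_cases hi : i ∈ J
        · simp [hx, ot, hi]
        · rw [hmJ i hi]; simp
      rw [e1, h6]
      exact DFunLike.congr_fun hcc c)
    (by
      intro i hi
      by_contra hcon
      push Not at hcon
      have h6 := additive h1 h2 hF hFd hφ x G hG hGx PP E hE hPP (Pi.single i 1) (by
          intro h
          have := congrFun h i
          rw [Pi.single_eq_same] at this
          exact one_ne_zero this) 0
        (fun z v u hz hu => hcon z v u hz (by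
          rw [Finset.sum_eq_single i] at hu
          · simpa using hu
          · intro j _ hj
            rw [Pi.single_eq_of_ne hj]; simp
          · intro h; exact absurd (Finset.mem_univ _) h))
      apply hne0 (ot J i)
      show x i = 0
      rw [Finset.sum_eq_single i] at h6
      · simpa using h6
      · intro j _ hj
        rw [Pi.single_eq_of_ne hj]; simp
      · intro h; exact absurd (Finset.mem_univ _) h)
    (degree h1 h2 hF hFd hφ G hG PP E hE hPP)
  have hsplit : (evalEvalRingHom z v) (∏ f ∈ s, D f) ≠ 0 ∧ (evalEvalRingHom z v) N ≠ 0 := by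
    have : (evalEvalRingHom z v) ((∏ f ∈ s, D f) * N) ≠ 0 := hH'
    rw [map_mul] at this
    exact ⟨left_ne_zero_of_mul this, right_ne_zero_of_mul this⟩
  set w : Fin n → ℂ := fun i => (A i).evalEval z v / (B i).evalEval z v with hw
  obtain ⟨h6, h7⟩ := hfin u w (fun i => if i ∈ J then u i else w i) (by
    intro i hi
    simp only [if_pos hi]
    exact ⟨trivial, hexp i hi⟩) (by
    intro i hi
    simp only [if_neg hi]
    exact ⟨trivial, (hexp2 i hi).symm⟩)
  refine ⟨fun i => if i ∈ J then u i else w i, ?_, ?_⟩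
  · have hle : P.map (MvPolynomial.rename (sg J)).toRingHom ≤ RingHom.ker (MvPolynomial.eval
        (Sum.elim u (fun i => (A i).evalEval z v / (B i).evalEval z v))) := by
      rw [← hs, Ideal.map_span, Ideal.span_le]
      rintro _ ⟨f, hf, rfl⟩
      show _ ∈ RingHom.ker _
      rw [RingHom.mem_ker]
      refine hD2 f (hsP f hf) z v u hz (fun i => (hAB i).2) ?_ hPu
      have := hsplit.1
      rw [map_prod, Finset.prod_ne_zero_iff] at this
      exact this f hf
    intro f hf
    rw [h6 f]
    exact RingHom.mem_ker.mp (hle (Ideal.mem_map_of_mem _ hf))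
  · rw [h7]
    exact hN2 z v hz (fun i => (hAB i).2) hsplit.2

end Pool.Agent.Q72.MX
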