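import Pool.Agent.Q72.MX.M1
import Pool.Agent.Q72.MX.M2
import Pool.Agent.Q72.MX.AsmM
import Pool.Agent.Q72.MX.MM
import Pool.Agent.Q72.MX.VM
import Pool.Agent.Q72.MX.Tr
import Pool.Agent.Q162.MX.LA
import Pool.Agent.Q162.MX.LB
import Pool.Agent.Q162.MX.XX
import Pool.Agent.Q211.MX.EX
import Pool.Agent.Q211.MX.IT
import Pool.Agent.Q211.MX.XP
import Pool.Agent.Q66.MX.LC
import Pool.Agent.Q66.MX.PP
import Pool.Agent.Q26.MX.D1
import Pool.Agent.Q26.MX.D3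
import Pool.Agent.Q285.MX.D2
import Pool.Agent.Q285.MX.DQ

/-! Project MX (helper72): all parts. -/

set_option autoImplicit false

namespace Pool.Agent.Q72.MX

theorem all_LC : S_LC := Pool.Agent.Q66.MX.lc _root_.Q162.MX.la _root_.Q162.MX.lb

theorem all_EX : S_EX := Pool.Agent.Q211.MX.ex Pool.Agent.Q66.MX.pp all_LC Pool.Agent.Q211.MX.it

theorem all_XP : S_XP := Pool.Agent.Q211.MX.xp (_root_.Q162.MX.xx _root_.Q162.MX.lb)

theorem all_M : S_M := t_M (t_M1 all_EX Pool.Agent.Q211.MX.it2)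
  (t_M2 Pool.Agent.Q66.MX.pp Pool.Agent.Q211.MX.it all_EX Pool.Agent.Q66.MX.g01 all_XP)

theorem all_MM : S_MM := t_MM all_M

theorem all_VM : S_VM := t_VM Pool.Agent.W114.ECR.t_res Pool.Agent.W114.ECR.t_cov
  Pool.Agent.W366.EC.t_kern Pool.Agent.W597.EC.t_plane all_MM

end Pool.Agent.Q72.MX

namespace Pool.Agent.Q72.MX

theorem all_DQ : S_DQ := Pool.Agent.Q285.MX.dq
  (Pool.Agent.Q26.MX.d3 (Pool.Agent.Q26.MX.d1 all_M) Pool.Agent.Q285.MX.d2)

end Pool.Agent.Q72.MX
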