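import Pool.Agent.W996.EC.Stm
import Pool.Agent.W996.EC.Cv
import Pool.Agent.W996.EC.Prep

/-!
Project MX (helper72): exponential-algebraic closedness for free varieties `V ⊆ ℂ^n × (ℂ^*)^n` of
dimension at least `n` for which some choice of one coordinate from each pair `(x_i, y_i)` satisfies:
the projection of `V` to the chosen coordinates has dimension at most one.

Explicitly: a curve `T = TT F h`, multiplicatively independent units `R_i` on `T` (`exp x_i = R_i`),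
additively independent regular functions `S_j` on `T` (`y_j = exp S_j`), and
`P = ∑_β y^β Q_β(x)`, the `Q_β` polynomials in `x` with regular coefficients on `T`.

This file: definitions.
-/

set_option autoImplicit false

namespace Pool.Agent.Q72.MX

open Filter Topology Polynomial Pool.Agent.W996.EC

/-- the punctured disc -/
def PD (r : ℝ) : Set ℂ := {q | q ≠ 0 ∧ ‖q‖ < r}

/-- the functions `S j` are regular on `T` and no nontrivial integer combination is constant -/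
def AddIndep {b : ℕ} (T : Set (ℂ × ℂ)) (S : Fin b → ℂ × ℂ → ℂ) : Prop :=
  (∀ j, Reg T (S j)) ∧
  ∀ m : Fin b → ℤ, m ≠ 0 → ¬ ∃ c : ℂ, ∀ p ∈ T, ∑ j, (m j : ℂ) * S j p = c

/-- `β · S` -/
noncomputable def dt {b : ℕ} (S : Fin b → ℂ × ℂ → ℂ) (β : Fin b → ℤ) (p : ℂ × ℂ) : ℂ :=
  ∑ j, (β j : ℂ) * S j p

/-- holomorphic on the curve: holomorphic along every local branch -/
def HolT (F : ℂ[X][X]) (h : ℂ[X]) (f : ℂ × ℂ → ℂ) : Prop :=
  ∀ (z0 : ℂ) (ρ : ℝ) (φ : ℂ → ℂ), 0 < ρ → DifferentiableOn ℂ φ (Metric.ball z0 ρ) →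
    (∀ z ∈ Metric.ball z0 ρ, (z, φ z) ∈ TT F h) →
    DifferentiableOn ℂ (fun z => f (z, φ z)) (Metric.ball z0 ρ)

/-- bounded by a power of `e^{-Re w}` on horizontal half strips -/
def PB (q : ℂ → ℂ) : Prop :=
  ∀ Y : ℝ, ∃ (C c : ℝ) (M : ℕ), ∀ w : ℂ, w.re < c → |w.im| ≤ Y →
    ‖q w‖ ≤ C * Real.exp (-(M * w.re))

/-- `A` is the function `a (e^w)` on the left half plane, `a` meromorphic at `0`, not zero near `0` -/
def Germ1 (c0 : ℝ) (A : ℂ → ℂ) : Prop :=
  ∃ a : ℂ → ℂ, MeromorphicAt a 0 ∧ (∀ᶠ s in 𝓝[≠] (0 : ℂ), a s ≠ 0) ∧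
    ∀ w ∈ LH c0, A w = a (Complex.exp w)

/-- `A` is the function `a (e^w)` on the left half plane, `a` meromorphic at `0` (possibly zero) -/
def Germ0 (c0 : ℝ) (A : ℂ → ℂ) : Prop :=
  ∃ a : ℂ → ℂ, MeromorphicAt a 0 ∧ ∀ w ∈ LH c0, A w = a (Complex.exp w)

end Pool.Agent.Q72.MX
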