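import Pool.Agent.Q72.MX.Stm
import Pool.Agent.W996.EC.Gen2
import Pool.Agent.W973.EC.Loc
import Pool.Agent.W366.EC.Irr

/-! Project MX (helper72): S_M1 from S_EX and S_IT2. -/

set_option autoImplicit false

namespace Pool.Agent.Q72.MX

open Filter Topology Polynomial Pool.Agent.W996.EC

theorem exists_int_pt {a : ℕ} (f : MvPolynomial (Fin a) ℂ) (hf : f ≠ 0) :
    ∃ κ : Fin a → ℤ, MvPolynomial.eval (fun j => (κ j : ℂ)) f ≠ 0 := by
  have hinf : ∀ _ : Fin a, (Set.range (Int.cast : ℤ → ℂ)).Infinite := fun _ =>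
    Set.infinite_range_of_injective Int.cast_injective
  have h2 : ¬ ∀ x ∈ Set.pi Set.univ (fun _ : Fin a => Set.range (Int.cast : ℤ → ℂ)),
      MvPolynomial.eval x f = MvPolynomial.eval x 0 := fun h =>
    hf (MvPolynomial.funext_set _ hinf h)
  push Not at h2
  obtain ⟨x, hx, hne⟩ := h2
  have h3 : ∀ i, ∃ k : ℤ, (k : ℂ) = x i := fun i => hx i (Set.mem_univ i)
  choose κ hκ using h3
  refine ⟨κ, fun h => hne ?_⟩
  have : (fun j => (κ j : ℂ)) = x := funext hκ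
  rw [map_zero, ← this, h]

theorem HolT.reg {F : ℂ[X][X]} {h : ℂ[X]} {g : ℂ × ℂ → ℂ} (hg : Reg (TT F h) g) :
    HolT F h g := fun _ _ _ _ hφ hT =>
  hg.diff (t := fun z => (z, _)) hT differentiableOn_id hφ

theorem HolT.mul {F : ℂ[X][X]} {h : ℂ[X]} {f g : ℂ × ℂ → ℂ} (hf : HolT F h f)
    (hg : HolT F h g) : HolT F h (fun p => f p * g p) := fun z0 ρ φ hρ hφ hT =>
  (hf z0 ρ φ hρ hφ hT).mul (hg z0 ρ φ hρ hφ hT)

theorem HolT.exp {F : ℂ[X][X]} {h : ℂ[X]} {f : ℂ × ℂ → ℂ} (hf : HolT F h f) :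
    HolT F h (fun p => Complex.exp (f p)) := fun z0 ρ φ hρ hφ hT =>
  (hf z0 ρ φ hρ hφ hT).cexp

theorem HolT.sum {F : ℂ[X][X]} {h : ℂ[X]} {ι : Type*} (s : Finset ι) {f : ι → ℂ × ℂ → ℂ}
    (hf : ∀ i ∈ s, HolT F h (f i)) : HolT F h (fun p => ∑ i ∈ s, f i p) :=
  fun z0 ρ φ hρ hφ hT => DifferentiableOn.fun_sum fun i hi => hf i hi z0 ρ φ hρ hφ hT

theorem HolT.const {F : ℂ[X][X]} {h : ℂ[X]} (c : ℂ) : HolT F h (fun _ => c) :=
  fun _ _ _ _ _ _ => differentiableOn_const c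

theorem HolT.dt {F : ℂ[X][X]} {h : ℂ[X]} {b : ℕ} {S : Fin b → ℂ × ℂ → ℂ}
    (hS : ∀ j, Reg (TT F h) (S j)) (β : Fin b → ℤ) : HolT F h (dt S β) := by
  have : HolT F h (fun p => ∑ j ∈ Finset.univ, (β j : ℂ) * S j p) :=
    HolT.sum _ fun j _ => (HolT.const _).mul (HolT.reg (hS j))
  exact this

theorem reg_evalEval (T : Set (ℂ × ℂ)) (G : ℂ[X][X]) :
    Reg T (fun p => G.evalEval p.1 p.2) :=
  ⟨G, 1, fun p _ => by simp⟩

theorem t_M1 (hEX : S_EX) (hIT2 : S_IT2) : S_M1 := by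
  classical
  intro a b D F h R S hC hR hR0 hS B Q β1 β2 hβ1 hβ2 hne hle hd1 hd2
  obtain ⟨p1, hp1, hd1⟩ := hd1
  obtain ⟨p2, hp2, hd2⟩ := hd2
  obtain ⟨κ, hκ⟩ := exists_int_pt _ (mul_ne_zero hd1 hd2)
  rw [map_mul] at hκ
  set aa : (Fin b → ℤ) → ℂ × ℂ → ℂ := fun β p => (lead (Q β) D κ).evalEval p.1 p.2 with haa
  have haaE : ∀ β p, aa β p = MvPolynomial.eval (fun j => (κ j : ℂ))
      (MvPolynomial.homogeneousComponent D (spec (Q β) p.1 p.2)) := fun β p =>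
    evalEval_lead _ _ _ _ _
  have hreg : ∀ β ∈ B, Reg (TT F h) (aa β) := fun β _ => reg_evalEval _ _
  have hc1 : aa β1 p1 ≠ 0 := by rw [haaE]; exact left_ne_zero_of_mul hκ
  have hc2 : aa β2 p2 ≠ 0 := by rw [haaE]; exact right_ne_zero_of_mul hκ
  obtain ⟨e1, e2⟩ := hEX b F h S hC hS B aa hreg
  set G : ℂ × ℂ → ℂ := fun p => ∑ β ∈ B, aa β p * Complex.exp (dt S β p) with hG
  have hGhol : HolT F h G :=
    HolT.sum _ fun β hβ => (HolT.reg (hreg β hβ)).mul (HolT.dt hS.1 β).exp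
  have hz : ∃ p0 ∈ TT F h, G p0 = 0 := by
    by_contra hcon
    push Not at hcon
    rcases e2 hcon β1 hβ1 β2 hβ2 hne with h3 | h3
    · exact hc1 (h3 p1 hp1)
    · exact hc2 (h3 p2 hp2)
  have hnz : ¬ ∀ p ∈ TT F h, G p = 0 := fun hcon => hc1 (e1 hcon β1 hβ1 p1 hp1)
  obtain ⟨p0, hp0, hu⟩ := hz
  obtain ⟨ρ, φ, hρ, hφ, hφ0, hφT, -⟩ := W973.EC.t_loc F h hC p0.1 p0.2 hp0
  have hid : DifferentiableOn ℂ (fun w : ℂ => w) (Metric.ball p0.1 ρ) := differentiableOn_id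
  obtain ⟨ρ', hρ', hle', x, hx1, hx2⟩ := exists_logs (fun i z => R i (z, φ z)) p0.1 ρ hρ
    (fun i => (hR i).diff (t := fun z => (z, φ z)) hφT hid hφ)
    (fun i => hR0 i _ (hφT _ (Metric.mem_ball_self hρ)))
  have hsub : Metric.ball p0.1 ρ' ⊆ Metric.ball p0.1 ρ := Metric.ball_subset_ball hle'
  set q : ℂ → MvPolynomial (Fin a) ℂ := fun w =>
    if w ∈ Metric.ball p0.1 ρ' then ∑ β ∈ B, MvPolynomial.C (Complex.exp (dt S β (w, φ w))) *
      spec (Q β) w (φ w) else 0 with hq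
  have hqe : ∀ w ∈ Metric.ball p0.1 ρ', q w = ∑ β ∈ B,
      MvPolynomial.C (Complex.exp (dt S β (w, φ w))) * spec (Q β) w (φ w) := fun w hw => by
    simp only [hq, if_pos hw]
  have hmem0 : p0.1 ∈ Metric.ball p0.1 ρ' := Metric.mem_ball_self hρ'
  have hlead : ∀ w ∈ Metric.ball p0.1 ρ', MvPolynomial.eval (fun i => (κ i : ℂ))
      (MvPolynomial.homogeneousComponent D (q w)) = G (w, φ w) := by
    intro w hw
    rw [hqe w hw, map_sum, map_sum, hG]
    refine Finset.sum_congr rfl fun β _ => ?_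
    rw [MvPolynomial.homogeneousComponent_C_mul, map_mul, MvPolynomial.eval_C, haaE, mul_comm]
  have a1 : ∀ m, DifferentiableOn ℂ (fun w => MvPolynomial.coeff m (q w))
      (Metric.ball p0.1 ρ') := by
    intro m
    have h1 : DifferentiableOn ℂ (fun w => ∑ β ∈ B, Complex.exp (dt S β (w, φ w)) *
        (MvPolynomial.coeff m (Q β)).evalEval w (φ w)) (Metric.ball p0.1 ρ') := by
      refine DifferentiableOn.fun_sum fun β _ => DifferentiableOn.mul ?_ ?_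
      · exact ((HolT.dt hS.1 β).exp p0.1 ρ φ hρ hφ hφT).mono hsub
      · exact diff_evalEval _ (hid.mono hsub) (hφ.mono hsub)
    refine h1.congr fun w hw => ?_
    show MvPolynomial.coeff m (q w) = _
    rw [hqe w hw, MvPolynomial.coeff_sum]
    refine Finset.sum_congr rfl fun β _ => ?_
    rw [MvPolynomial.coeff_C_mul, coeff_spec]
  have a2 : ∀ w, (q w).totalDegree ≤ D := by
    intro w
    by_cases hw : w ∈ Metric.ball p0.1 ρ'
    · rw [hqe w hw]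
      refine MvPolynomial.totalDegree_finsetSum_le fun β hβ => ?_
      refine (MvPolynomial.totalDegree_mul _ _).trans ?_
      rw [MvPolynomial.totalDegree_C, zero_add]
      exact hle β hβ (w, φ w) (hφT w (hsub hw))
    · have : q w = 0 := by simp only [hq, if_neg hw]
      rw [this, MvPolynomial.totalDegree_zero]
      exact Nat.zero_le _
  have a3 : MvPolynomial.eval (fun i => (κ i : ℂ))
      (MvPolynomial.homogeneousComponent D (q p0.1)) = 0 := by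
    rw [hlead _ hmem0, hφ0]
    exact hu
  have a4 : ¬ ∀ᶠ w in 𝓝 p0.1, MvPolynomial.eval (fun i => (κ i : ℂ))
      (MvPolynomial.homogeneousComponent D (q w)) = 0 := by
    intro hev
    have hb : ∀ᶠ w in 𝓝 p0.1, w ∈ Metric.ball p0.1 ρ' := Metric.ball_mem_nhds _ hρ'
    obtain ⟨ε, hε, hball⟩ := Metric.eventually_nhds_iff_ball.1 (hev.and hb)
    have hsub2 : Metric.ball p0.1 ε ⊆ Metric.ball p0.1 ρ := fun w hw => hsub (hball w hw).2
    apply hnz
    refine hIT2 F h hC G hGhol p0.1 ε φ hε (hφ.mono hsub2) (fun z hz => hφT z (hsub2 hz)) ?_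
    intro w hw
    rw [← hlead w (hball w hw).2]
    exact (hball w hw).1
  obtain ⟨w, hw, N, hN⟩ := Pool.Agent.W366.EC.t_lead a D κ x q p0.1 ρ' hρ' hx1 a1 a2 a3 a4
  refine ⟨(w, φ w), hφT w (hsub hw), _, exp_shift (hx2 w hw) N, ?_⟩
  rw [hqe w hw, map_sum] at hN
  unfold EPv
  rw [← hN]
  refine Finset.sum_congr rfl fun β _ => ?_
  rw [map_mul, MvPolynomial.eval_C]

end Pool.Agent.Q72.MX
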