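import Pool.Agent.Q72.MX.Def

/-!
Project MX (helper72): statements, with complete proofs in the docstrings.
-/

set_option autoImplicit false

namespace Pool.Agent.Q72.MX

open Filter Topology Polynomial Pool.Agent.W996.EC

/-- JOB LA. Zero-free functions of finite order near a puncture.
Proof. Lift to `w`, `q = e^w`: `e(w) = f(e^w)` is zero free and holomorphic on the half plane
`Re w < log r` (convex), so `e = exp k` with `k` holomorphic there, and `k(w + 2πi) - k(w)` is a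
constant `2πi l`, `l ∈ ℤ`. So `k(w) - l w` is `2πi`-periodic and equals `H0(e^w)` with `H0`
holomorphic on `PD r`, and `Re H0(q) = log ‖f q‖ - l log ‖q‖ ≤ C' ‖q‖⁻¹ ^ M'` near `0`. Then
`‖H0 q‖ ≤ A ‖q‖⁻¹ ^ K` near `0`: apply Borel–Carathéodory to `k` on discs of radius `1/2` inside discs
of radius `1` with centres `w0, w0 - 1/2, w0 - 1, ...` (each step multiplies the bound by a constant
and adds the bound of the real part, the number of steps is `O(|Re w|)`, so the result is bounded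
by a power of `e^{-Re w}`); or use the Laurent coefficients: the coefficient `a_k` of `q^{-k}` is at
most `ρ^k` times a constant times the mean of `|Re H0|` on `‖q‖ = ρ` (plus the conjugate one), and
the mean of `|u|` is at most `2 mean(u⁺) + |mean u|`, `mean u = α log ρ + β`. Hence `q ^ K * H0 q` has a removable
singularity and `H0 q = H(1/q) + analytic`; put `G = exp(analytic)`. -/
def S_LA : Prop := ∀ (f : ℂ → ℂ) (r C : ℝ) (M : ℕ), 0 < r → DifferentiableOn ℂ f (PD r) →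
  (∀ q ∈ PD r, f q ≠ 0) → (∀ q ∈ PD r, ‖f q‖ ≤ Real.exp (C * ‖q‖⁻¹ ^ M)) →
  ∃ (l : ℤ) (H : ℂ[X]) (G : ℂ → ℂ), AnalyticAt ℂ G 0 ∧ G 0 ≠ 0 ∧
    ∀ᶠ q in 𝓝[≠] (0 : ℂ), f q = q ^ l * Complex.exp (H.eval q⁻¹) * G q

/-- the sector `‖T‖ ≥ ρ0`, `T` close to the direction `exp(iφ)` -/
def Sec (φ ρ0 η : ℝ) : Set ℂ :=
  {T | ρ0 ≤ ‖T‖ ∧ ‖T - (‖T‖ : ℂ) * Complex.exp (φ * Complex.I)‖ ≤ η * ‖T‖}

/-- JOB LB. Directions. For finitely many nonconstant polynomials and a distinguished one `u0` there is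
a sector in which `Re u0(T)` grows at least linearly and every `Re u(T)`, `u ∈ W`, tends to `+∞` or `-∞`
at least linearly.
Proof. With leading coefficient `a`, degree `d ≥ 1`: `u(T) / ‖T‖^d - a (T/‖T‖)^d → 0`, so it suffices that
`Re (a e^d) ≠ 0` for all `u` and `Re (a0 e^d0) > 0` for `e = exp(iφ)`, and then `η` small. On the unit circle
the first condition excludes finitely many `φ ∈ [0, 2π)` for each `u`, the second is an open nonempty
condition. -/
def S_LB : Prop := ∀ (W : Finset ℂ[X]) (u0 : ℂ[X]), (∀ u ∈ W, 1 ≤ u.natDegree) →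
  1 ≤ u0.natDegree →
  ∃ (φ c ρ0 η : ℝ), 0 < c ∧ 0 < ρ0 ∧ 0 < η ∧
    (∀ T ∈ Sec φ ρ0 η, c * ‖T‖ ≤ (u0.eval T).re) ∧
    ∀ u ∈ W, (∀ T ∈ Sec φ ρ0 η, c * ‖T‖ ≤ (u.eval T).re) ∨
      (∀ T ∈ Sec φ ρ0 η, (u.eval T).re ≤ -(c * ‖T‖))

/-- JOB PP. Polar part. Every function meromorphic at `0` is `u(1/q) + k(q)` near `0`, `u` a polynomial
without constant term, `k` analytic at `0`.
Proof. `g q = q ^ l * G q` with `G` analytic; if `l < 0` subtract the Taylor polynomial of `G` of degree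
`< -l + 1`... (`G = ∑_{j ≤ -l} g_j q^j + q^{-l+1} G1`, the term `j = -l` is a constant and goes to `k`). -/
def S_PP : Prop := ∀ g : ℂ → ℂ, MeromorphicAt g 0 →
  ∃ (u : ℂ[X]) (k : ℂ → ℂ), u.coeff 0 = 0 ∧ AnalyticAt ℂ k 0 ∧
    ∀ᶠ q in 𝓝[≠] (0 : ℂ), g q = u.eval q⁻¹ + k q

/-- JOB LC. Exponential sums near a puncture: linear independence, and a zero free sum has only one
nonzero term. `f q = ∑ g_i(q) exp(u_i(1/q))`, the `g_i` meromorphic at `0`, the `u_i` distinct
polynomials without constant term.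
Proof. Let `I` be the set of the `i` with `g_i` not eventually zero; `g_i q = q ^ l_i * G_i q` with
`G_i(0) ≠ 0` near `0` for `i ∈ I` (so `c |q|^a ≤ ‖g_i q‖ ≤ C |q|^b`). For `i ≠ j` in `I` the polynomial
`u_i - u_j` is nonconstant. Part 1: if `I` is not empty take a direction of S_LB for all differences; there is a
`i*` with `Re(u_i* - u_j)(ρ e) ≥ c ρ` for all `j ≠ i*` (a transitive total order), so the sum divided
by its `i*` term tends to `1` along `q = 1/(ρ e)`, contradiction. Part 2: the sum is holomorphic, zero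
free and of finite order near `0` (and eventually equal to a function differentiable on a small `PD`),
so S_LA gives `f = q^l exp(H(1/q)) G`, WLOG `H` has no constant term. In every direction as above (put also
the nonconstant ones among the `H - u_i` into `W`) the `i*` term dominates, so
`Re(H - u_i*)(ρ e) = O(log ρ)`, hence `H - u_i*` is constant, so `u_i* = H`. So `i*` does not depend on the direction.
If there was another `j ∈ I`, choose the direction with `u0 = u_j - u_i*`: then `Re u_j > Re u_i*`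
there, contradiction. -/
def S_LC : Prop := ∀ (ι : Type) [Fintype ι] (u : ι → ℂ[X]) (g : ι → ℂ → ℂ),
  Function.Injective u → (∀ i, (u i).coeff 0 = 0) → (∀ i, MeromorphicAt (g i) 0) →
  ((∀ᶠ q in 𝓝[≠] (0 : ℂ), ∑ i, g i q * Complex.exp ((u i).eval q⁻¹) = 0) →
    ∀ i, ∀ᶠ q in 𝓝[≠] (0 : ℂ), g i q = 0) ∧
  ((∀ᶠ q in 𝓝[≠] (0 : ℂ), ∑ i, g i q * Complex.exp ((u i).eval q⁻¹) ≠ 0) →
    ∃ i0, ∀ i, i ≠ i0 → ∀ᶠ q in 𝓝[≠] (0 : ℂ), g i q = 0)

/-- JOB IT. Identity theorem on the curve, starting from a nonconstant place.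
Proof. `z ∘ t` is not constant on the half plane `Re w < c0`: otherwise `z ∘ t = z1`, and `v ∘ t` is a continuous
function on a connected set with values in the finite set of roots of `F(z1, ·)` (`Cov.good`), so
constant. So (identity theorem for `z ∘ t` on the half plane) there is `w1`, `Re w1 < c1`, with
`(z ∘ t)'(w1) ≠ 0`; near `w1` the map `z ∘ t` has a holomorphic inverse, and `φ = v ∘ t ∘ (z ∘ t)⁻¹`
is a local branch on a ball on which `f(z, φ z) = 0`. Let `Z` be the set of the points `p ∈ TT F h` such that for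
some local branch `φ` on some ball `B(p.1, ρ)` with `φ p.1 = p.2`, `f(z, φ z) = 0` on the ball. `Z` is not
empty, open and closed in `TT F h` (S_loc: all points of the curve near `(z0, v0)` are on the
graph of the branch; the identity theorem on the ball) and `TT F h` is preconnected
(`Pool.Agent.W114.ECC.t_conn`), so `Z = TT F h`. Available: `Pool.Agent.W973.EC.t_loc : S_loc`,
`Pool.Agent.W114.ECC.t_conn : S_conn` (import Pool.Agent.W973.EC.Loc, Pool.Agent.W114.ECConn). -/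
def S_IT : Prop := ∀ (F : ℂ[X][X]) (h : ℂ[X]), Cov F h → ∀ f : ℂ × ℂ → ℂ, HolT F h f →
  ∀ (t : ℂ → ℂ × ℂ) (c0 : ℝ), IsPlace (TT F h) t c0 →
  (¬ ∃ p : ℂ × ℂ, ∀ w : ℂ, w.re < c0 → t w = p) →
  ∀ c1 : ℝ, c1 ≤ c0 → (∀ w : ℂ, w.re < c1 → f (t w) = 0) → ∀ p ∈ TT F h, f p = 0

/-- JOB IT, second statement: the identity theorem starting from a local branch. -/
def S_IT2 : Prop := ∀ (F : ℂ[X][X]) (h : ℂ[X]), Cov F h → ∀ f : ℂ × ℂ → ℂ, HolT F h f →
  ∀ (z0 : ℂ) (ρ : ℝ) (φ : ℂ → ℂ), 0 < ρ → DifferentiableOn ℂ φ (Metric.ball z0 ρ) →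
  (∀ z ∈ Metric.ball z0 ρ, (z, φ z) ∈ TT F h) → (∀ z ∈ Metric.ball z0 ρ, f (z, φ z) = 0) →
  ∀ p ∈ TT F h, f p = 0

/-- JOB G01. A function on the left half plane which is holomorphic and a Germ0 is zero or a Germ1
(identity theorem on the half plane and `MeromorphicAt.eventually_eq_zero_or_eventually_ne_zero`). -/
def S_G01 : Prop := ∀ (c0 : ℝ) (A : ℂ → ℂ), DifferentiableOn ℂ A (LH c0) → Germ0 c0 A →
  (∀ w ∈ LH c0, A w = 0) ∨ Germ1 c0 A

/-- JOB EX. Exponential sums on a curve which are zero free, or identically zero, have at most one nonzero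
term.
Proof (uses S_PP, S_LC, S_IT and `Pool.Agent.W996.EC.bdd : S_bdd`, import
Pool.Agent.W996.EC.QFinal). Induction on the number of elements of `B` (strong). Suppose
`β ≠ β'` in `B` with `a β`, `a β'` not identically zero on `T = TT F h`. `dt S (β - β')` is a regular
function which is not constant, so by S_bdd there is a place `t` on which it is not bounded; in
particular `t` is not constant, and no regular function which is not identically zero on `T` vanishes on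
`t` (S_IT). Along `t`, with `q = e^w`, `dt S γ (t w)` (`γ ∈ B`) is a function of `q` meromorphic at
`0`, so equal to `u_γ(1/q) + k_γ(q)` (S_PP), `u_β ≠ u_β'` as `u_{β} - u_{β'}` is the polar part of
`dt S (β - β')`, which is unbounded. Group the terms by the value `u` of `u_γ`:
`f(t w) = ∑_u exp(u(1/q)) g_u(q)`, `g_u(q) = ∑_{γ : u_γ = u} a_γ(q) exp(k_γ(q))` meromorphic at `0`.
By S_LC all `g_u` are eventually zero (if `f` is zero on `T`), or all but one (if `f` is zero free on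
`T`). If `g_u` is eventually zero then `∑_{γ ∈ B, u_γ = u} a_γ exp(dt S γ)` vanishes on the place near
`-∞` and so on `T` by S_IT, and the induction hypothesis for the smaller set `{γ ∈ B, u_γ = u}` shows that at
most one `a_γ` is nonzero, and then none. In the class of `β` or in the class of `β'` this happens,
contradiction. (If `f` is zero on `T`, `B = {β}`: `a β = 0`, this is the third assertion for one term.) -/
def S_EX : Prop := ∀ (b : ℕ) (F : ℂ[X][X]) (h : ℂ[X]) (S : Fin b → ℂ × ℂ → ℂ), Cov F h →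
  AddIndep (TT F h) S → ∀ (B : Finset (Fin b → ℤ)) (a : (Fin b → ℤ) → ℂ × ℂ → ℂ),
  (∀ β ∈ B, Reg (TT F h) (a β)) →
  ((∀ p ∈ TT F h, ∑ β ∈ B, a β p * Complex.exp (dt S β p) = 0) →
    ∀ β ∈ B, ∀ p ∈ TT F h, a β p = 0) ∧
  ((∀ p ∈ TT F h, ∑ β ∈ B, a β p * Complex.exp (dt S β p) ≠ 0) →
    ∀ β ∈ B, ∀ β' ∈ B, β ≠ β' → (∀ p ∈ TT F h, a β p = 0) ∨ (∀ p ∈ TT F h, a β' p = 0))

/-- JOB XX. The main local lemma: `F(Λ, w) = Λ^D A(w) + ∑_{l<D} Λ^l q0_l(w) + ∑_i exp(u_i(e^{-w}))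
(Λ^{d_i} g_i(w) + ∑_{l < d_i} Λ^l q_{i,l}(w))`, `d_i < D`, has a zero with `Λ` a natural number.
Proof. Put `v_i = (D - d_i)⁻¹ • u_i`. By S_LB (for all nonconstant `v_i - v_j`, all `u_i`, and `u0 = u_{i1}` for
some `i1`) choose a sector around `e = exp(iφ)`. Let `v* = v_{i*}` be the largest one there, so
`Re v*(T) ≥ c ‖T‖` in the sector and for every `i` either `v_i = v*` or `Re (v* - v_i)(T) ≥ c ‖T‖`. Let
`I* = {i : v_i = v*}`; the `d_i`, `i ∈ I*`, are distinct because the `u_i` are. Put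
`w_ρ = - log ρ - iφ`, so `e^{-w_ρ} = ρ e`. By Germ1, `A(w) = e^{l w} (a0 + O(e^w))`, `a0 ≠ 0`, similarly
`g_i`. Let `X_ρ > 0` be such that `max_{i ∈ I*} X_ρ^{D - d_i} ‖g_i(w_ρ)‖ / ‖A(w_ρ)‖ = 1`; then
`ρ^{-M} ≤ X_ρ ≤ ρ^M`. Let `Λ_ρ` be the integer part of `exp(Re v*(ρ e)) / X_ρ` (tends to infinity
exponentially). Let `δ = deg v* ≥ 1`, `μ = - δ * lead(v*) * e^δ ≠ 0`. For `w = w_ρ + ζ ρ^{-δ}`,
`ζ` in a compact set (so `e^{-w}` is in the sector): `v*(e^{-w}) - v*(ρ e) → μ ζ` (uniformly), `A(w)/A(w_ρ) → 1`,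
`g_i(w)/g_i(w_ρ) → 1`. So `F(Λ_ρ, w)/(Λ_ρ^D A(w_ρ))` converges locally uniformly in `ζ`, for a suitable
sequence `ρ = ρ_n → ∞`, to `1 + ∑_{i ∈ I*} c_i exp((D - d_i) μ ζ)`,
`c_i = lim X_ρ^{D - d_i} exp(i (D - d_i) Im v*(ρ e)) g_i(w_ρ)/A(w_ρ)` (subsequence), `max |c_i| = 1`: the terms with
`i ∉ I*` are `O(ρ^M exp(-c ρ))`, the terms with `l < d_i` and the terms of `q0` contain a factor
`Λ_ρ^{-1} ρ^M`. The limit is `p(exp(μ ζ))` with a nonconstant polynomial `p`, `p(0) = 1`; `p` has a nonzero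
root, so the limit function has a zero and is not identically zero, and by Hurwitz (or the
argument: a nonzero limit has an isolated zero; use any Hurwitz theorem of the pool) so has `F(Λ_ρ, ·)` near `w_ρ` for
large `n`. -/
def S_XX : Prop := ∀ (D : ℕ) (ι : Type) [Fintype ι] [Nonempty ι] (u : ι → ℂ[X]) (d : ι → ℕ)
  (c0 : ℝ) (A : ℂ → ℂ) (g : ι → ℂ → ℂ) (q0 : ℕ → ℂ → ℂ) (q : ι → ℕ → ℂ → ℂ),
  Function.Injective u → (∀ i, (u i).coeff 0 = 0) → (∀ i, 1 ≤ (u i).natDegree) →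
  (∀ i, d i < D) → DifferentiableOn ℂ A (LH c0) → (∀ i, DifferentiableOn ℂ (g i) (LH c0)) →
  Germ1 c0 A → (∀ i, Germ1 c0 (g i)) →
  (∀ l, DifferentiableOn ℂ (q0 l) (LH c0) ∧ PB (q0 l)) →
  (∀ i l, DifferentiableOn ℂ (q i l) (LH c0) ∧ PB (q i l)) →
  ∃ w ∈ LH c0, ∃ Λ : ℕ, (Λ : ℂ) ^ D * A w + ∑ l ∈ Finset.range D, (Λ : ℂ) ^ l * q0 l w +
    ∑ i, Complex.exp ((u i).eval (Complex.exp (-w))) *
      ((Λ : ℂ) ^ d i * g i w + ∑ l ∈ Finset.range (d i), (Λ : ℂ) ^ l * q i l w) = 0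

/-- JOB XP. The polynomial form of S_XX: `P0`, `P_i` are polynomials in `x_1..x_a` whose coefficients are
functions of `w`, evaluated at `x = α w + b + h(w) + 2πi κ Λ`.
Proof from S_XX: for a polynomial `P` with `totalDegree ≤ d`,
`eval (x + Λ K) P = Λ^d eval K (homogeneousComponent d P) + ∑_{l<d} Λ^l r_l`, where `r_l` is a polynomial
expression in the coefficients of `P`, `x` and `K`; apply this to `K = 2πi κ`,
`x = α w + b + h(w)` (bounded by a polynomial in `|w|`, so `PB`) and `P = P0 w`, `P = P_i w`. The sums and products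
of functions which are differentiable and `PB` have the same property, and `Germ0` implies `PB`. -/
def S_XP : Prop := ∀ (a D : ℕ) (ι : Type) [Fintype ι] [Nonempty ι] (u : ι → ℂ[X]) (d : ι → ℕ)
  (c0 C0 : ℝ) (P0 : ℂ → MvPolynomial (Fin a) ℂ) (P : ι → ℂ → MvPolynomial (Fin a) ℂ)
  (α : Fin a → ℝ) (b : Fin a → ℂ) (hh : ℂ → Fin a → ℂ) (κ : Fin a → ℤ),
  Function.Injective u → (∀ i, (u i).coeff 0 = 0) → (∀ i, 1 ≤ (u i).natDegree) →
  (∀ i, d i < D) →
  (∀ j, DifferentiableOn ℂ (fun w => hh w j) (LH c0)) → (∀ w ∈ LH c0, ‖hh w‖ ≤ C0) →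
  (∀ m, Germ0 c0 (fun w => MvPolynomial.coeff m (P0 w)) ∧
    DifferentiableOn ℂ (fun w => MvPolynomial.coeff m (P0 w)) (LH c0)) →
  (∀ i m, Germ0 c0 (fun w => MvPolynomial.coeff m (P i w)) ∧
    DifferentiableOn ℂ (fun w => MvPolynomial.coeff m (P i w)) (LH c0)) →
  (∀ w ∈ LH c0, (P0 w).totalDegree ≤ D) → (∀ i, ∀ w ∈ LH c0, (P i w).totalDegree ≤ d i) →
  Germ1 c0 (fun w => MvPolynomial.eval (fun j => (κ j : ℂ))
    (MvPolynomial.homogeneousComponent D (P0 w))) →
  (∀ i, Germ1 c0 (fun w => MvPolynomial.eval (fun j => (κ j : ℂ))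
    (MvPolynomial.homogeneousComponent (d i) (P i w)))) →
  ∃ w ∈ LH c0, ∃ N : Fin a → ℤ,
    MvPolynomial.eval (pt α b hh w N) (P0 w) +
      ∑ i, Complex.exp ((u i).eval (Complex.exp (-w))) *
        MvPolynomial.eval (pt α b hh w N) (P i w) = 0

/-- value of `∑_β y^β Q_β(x)` at the point `p` of the curve, `y = exp (S p)` -/
noncomputable def EPv {a b : ℕ} (S : Fin b → ℂ × ℂ → ℂ) (B : Finset (Fin b → ℤ))
    (Q : (Fin b → ℤ) → MvPolynomial (Fin a) ℂ[X][X]) (p : ℂ × ℂ) (x : Fin a → ℂ) : ℂ :=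
  ∑ β ∈ B, Complex.exp (dt S β p) * MvPolynomial.eval x (spec (Q β) p.1 p.2)

/-- JOB M1. Two exponents `β1 ≠ β2` of maximal degree `D` in `x`.
Proof. Choose `κ ∈ ℤ^a` such that the polynomials `homogeneousComponent D (spec (Q βi) pi)`, `i = 1, 2`, do not
vanish at `κ`. Put `a_β(p) = eval κ (homogeneousComponent D (spec (Q β) p.1 p.2))`, a regular function
(`evalEval_lead` in Pool.Agent.W996.EC.Gen), and `G = ∑ a_β exp(dt S β)`. By S_EX `G` is not zero free on
`TT F h` and not identically zero. Let `G p0 = 0`; along the branch through `p0` (`Pool.Agent.W973.EC.t_loc : S_loc`)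
`G` is not identically zero by S_IT2. Apply `Pool.Agent.W366.EC.t_lead : S_lead` to the polynomials
`∑_β C (exp(dt S β (w, φ w))) * spec (Q β) w (φ w)` exactly as in `case_lead` of
Pool.Agent.W996.EC.Gen (logarithms `x` of the `R i` along the branch: `exists_logs` there). -/
def S_M1 : Prop := ∀ (a b D : ℕ) (F : ℂ[X][X]) (h : ℂ[X]) (R : Fin a → ℂ × ℂ → ℂ)
  (S : Fin b → ℂ × ℂ → ℂ), Cov F h → (∀ i, Reg (TT F h) (R i)) →
  (∀ i, ∀ p ∈ TT F h, R i p ≠ 0) → AddIndep (TT F h) S →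
  ∀ (B : Finset (Fin b → ℤ)) (Q : (Fin b → ℤ) → MvPolynomial (Fin a) ℂ[X][X])
    (β1 β2 : Fin b → ℤ), β1 ∈ B → β2 ∈ B → β1 ≠ β2 →
  (∀ β ∈ B, ∀ p ∈ TT F h, (spec (Q β) p.1 p.2).totalDegree ≤ D) →
  (∃ p ∈ TT F h, MvPolynomial.homogeneousComponent D (spec (Q β1) p.1 p.2) ≠ 0) →
  (∃ p ∈ TT F h, MvPolynomial.homogeneousComponent D (spec (Q β2) p.1 p.2) ≠ 0) →
  ∃ p ∈ TT F h, ∃ x : Fin a → ℂ, (∀ i, Complex.exp (x i) = R i p) ∧ EPv S B Q p x = 0

/-- JOB M2. Only one exponent `β0` of maximal degree `D`, and another exponent `β1`.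
Proof. The regular function `dt S (β1 - β0)` is not constant, so by S_bdd (`Pool.Agent.W996.EC.bdd`, import
Pool.Agent.W996.EC.QFinal) there is a place `t` on which it is unbounded; `t` is not constant.
`Pool.Agent.W337.EC.t_end : S_end` gives `a, b, hh` with `exp(a w + b + hh w) = R(t w)`. For `γ ∈ B` the
function `dt S (γ - β0) (t w)` is, for `Re w < c1`, equal to `u_γ(e^{-w}) + k_γ(e^w)` (IsPlace for the
regular function `dt S (γ - β0)`, and S_PP), `u_β0 = 0`, `k_β0 = 0`; `u_β1` is nonconstant. For a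
polynomial `u` put `P_u(w) = ∑_{γ ∈ B, u_γ = u} C (exp(k_γ(e^w))) * spec (Q γ) (t w)`. Its coefficients are
holomorphic Germ0 functions on a half plane (IsPlace for the regular functions `(coeff m (Q γ)).evalEval`).
`P_u` is not identically zero for `u = u_β1`: otherwise, multiplying by `exp(u(e^{-w}) + dt S β0 (t w))`, the
function `∑_{γ ∈ B, u_γ = u} (coeff m (Q γ)).evalEval · exp(dt S γ)` vanishes on the place, so on `TT F h`
by S_IT, for every `m`, and by S_EX `spec (Q β1) = 0` on `TT F h`. Let `U` be the (finite, nonempty) set of the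
`u = u_γ ≠ 0`, `γ ∈ B`, with `P_u` not identically zero on the half plane; for `u ∈ U` let `d_u` be the largest
degree `|m|` of a coefficient of `P_u` which is not identically zero, so `d_u < D`. Choose points `w_u`
where `homogeneousComponent d_u (P_u w_u) ≠ 0`, a point `w_0` where
`homogeneousComponent D (P_0 w_0) ≠ 0` (only `γ = β0` contributes to degree `D`; S_IT shows that
it is not identically zero on the place), and `κ ∈ ℤ^a` at which none of these polynomials vanishes. By S_G01 the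
functions `eval κ (homogeneousComponent d_u (P_u w))` and `eval κ (homogeneousComponent D (P_0 w))` are
Germ1. Apply S_XP with index type `U` to get `w, N` with
`eval x (P_0 w) + ∑_u exp(u(e^{-w})) eval x (P_u w) = 0`, `x = pt a b hh w N`; multiply by
`exp(dt S β0 (t w))`: this is `EPv S B Q (t w) x = 0`, and `exp(x_i) = R_i(t w)`. -/
def S_M2 : Prop := ∀ (a b D : ℕ) (F : ℂ[X][X]) (h : ℂ[X]) (R : Fin a → ℂ × ℂ → ℂ)
  (S : Fin b → ℂ × ℂ → ℂ), Cov F h → (∀ i, Reg (TT F h) (R i)) →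
  (∀ i, ∀ p ∈ TT F h, R i p ≠ 0) → AddIndep (TT F h) S →
  ∀ (B : Finset (Fin b → ℤ)) (Q : (Fin b → ℤ) → MvPolynomial (Fin a) ℂ[X][X])
    (β0 β1 : Fin b → ℤ), β0 ∈ B → β1 ∈ B → β1 ≠ β0 →
  (∀ p ∈ TT F h, (spec (Q β0) p.1 p.2).totalDegree ≤ D) →
  (∀ β ∈ B, β ≠ β0 → ∀ p ∈ TT F h, spec (Q β) p.1 p.2 = 0 ∨
    (spec (Q β) p.1 p.2).totalDegree < D) →
  (∃ p ∈ TT F h, MvPolynomial.homogeneousComponent D (spec (Q β0) p.1 p.2) ≠ 0) →
  (∃ p ∈ TT F h, spec (Q β1) p.1 p.2 ≠ 0) →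
  ∃ p ∈ TT F h, ∃ x : Fin a → ℂ, (∀ i, Complex.exp (x i) = R i p) ∧ EPv S B Q p x = 0

/-- Consequence of S_M1 and S_M2: at least two exponents suffice. -/
def S_M : Prop := ∀ (a b : ℕ) (F : ℂ[X][X]) (h : ℂ[X]) (R : Fin a → ℂ × ℂ → ℂ)
  (S : Fin b → ℂ × ℂ → ℂ), Cov F h → (∀ i, Reg (TT F h) (R i)) →
  (∀ i, ∀ p ∈ TT F h, R i p ≠ 0) → AddIndep (TT F h) S →
  ∀ (B : Finset (Fin b → ℤ)) (Q : (Fin b → ℤ) → MvPolynomial (Fin a) ℂ[X][X])
    (β1 β2 : Fin b → ℤ), β1 ∈ B → β2 ∈ B → β1 ≠ β2 →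
  (∃ p ∈ TT F h, spec (Q β1) p.1 p.2 ≠ 0) → (∃ p ∈ TT F h, spec (Q β2) p.1 p.2 ≠ 0) →
  ∃ p ∈ TT F h, ∃ x : Fin a → ℂ, (∀ i, Complex.exp (x i) = R i p) ∧ EPv S B Q p x = 0

/-- JOB MM. The explicit theorem with mixed coordinates indexed by `Fin n`: for `i ∈ J` the base
coordinate `A i / B i` is `exp (x i)`, for `i ∉ J` it is the logarithm of `x i`.
Proof from S_M and `Pool.Agent.W996.EC.main : S_main` (import Pool.Agent.W996.EC.Final). Use S_cov
(`Pool.Agent.W114.ECR.t_cov`) with `h0` divisible by the resultants of `F` with `H`, the `A i`, the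
`B i` (finite_zeros), so that `R i = A i / B i` (`i ∈ J`) are regular units and `S i = A i / B i`
(`i ∉ J`) are regular on `TT F h` and the two independence hypotheses hold on `TT F h` (an identity on
`TT F h` extends to the whole curve by vanish_dvd, clearing denominators). Sort the monomials of `P` by
their exponents in the `x i`, `i ∉ J`: `P = ∑_β x^β Q_β` with `Q_β` a polynomial in the `x i`,
`i ∈ J`. If two of the `Q_β` are not identically zero on the curve, use S_M (identify `J` with `Fin a`, the complement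
with `Fin b`). Otherwise exactly one is (the last hypothesis excludes zero), and by the hypothesis on `x i = 0` its `β` is
`0`, so `P = Q_0` on the curve, and S_main for the index set `J`, `H` replaced by
`H * ∏ A i * ∏ B i` gives the point; put `x i = exp (A i / B i)` for `i ∉ J`. -/
def S_MM : Prop := ∀ (n : ℕ) (J : Finset (Fin n)) (F H : ℂ[X][X]) (A B : Fin n → ℂ[X][X])
  (P : MvPolynomial (Fin n) ℂ[X][X]), Irreducible F → 1 ≤ F.natDegree → ¬ F ∣ H →
  (∀ i, ¬ F ∣ A i) → (∀ i, ¬ F ∣ B i) →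
  (∀ m : Fin n → ℤ, m ≠ 0 → (∀ i, i ∉ J → m i = 0) → ∀ c : ℂ, ∃ z v : ℂ, F.evalEval z v = 0 ∧
    (∀ i, (A i).evalEval z v ≠ 0 ∧ (B i).evalEval z v ≠ 0) ∧
    ∏ i, ((A i).evalEval z v / (B i).evalEval z v) ^ m i ≠ c) →
  (∀ m : Fin n → ℤ, m ≠ 0 → (∀ i ∈ J, m i = 0) → ∀ c : ℂ, ∃ z v : ℂ, F.evalEval z v = 0 ∧
    (∀ i, (A i).evalEval z v ≠ 0 ∧ (B i).evalEval z v ≠ 0) ∧
    ∑ i, (m i : ℂ) * ((A i).evalEval z v / (B i).evalEval z v) ≠ c) →
  (∀ m : Fin n → ℤ, m ≠ 0 → (∀ i, i ∉ J → m i = 0) → ∀ c : ℂ,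
    ∃ (z v : ℂ) (x : Fin n → ℂ), F.evalEval z v = 0 ∧
    ∑ i, (m i : ℂ) * x i = c ∧ MvPolynomial.eval x (spec P z v) ≠ 0) →
  (∀ i, i ∉ J → ∃ (z v : ℂ) (x : Fin n → ℂ), F.evalEval z v = 0 ∧ x i = 0 ∧
    MvPolynomial.eval x (spec P z v) ≠ 0) →
  (∃ z v : ℂ, F.evalEval z v = 0 ∧ 1 ≤ (spec P z v).totalDegree) →
  ∃ (z v : ℂ) (x : Fin n → ℂ), F.evalEval z v = 0 ∧ H.evalEval z v ≠ 0 ∧
    (∀ i, (A i).evalEval z v ≠ 0 ∧ (B i).evalEval z v ≠ 0) ∧
    (∀ i ∈ J, Complex.exp (x i) = (A i).evalEval z v / (B i).evalEval z v) ∧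
    (∀ i, i ∉ J → x i = Complex.exp ((A i).evalEval z v / (B i).evalEval z v)) ∧
    MvPolynomial.eval x (spec P z v) = 0

/-- the chosen coordinate of the pair `(x_i, y_i)`: `y_i` for `i ∈ J`, `x_i` for `i ∉ J` -/
def bs {n : ℕ} (J : Finset (Fin n)) (i : Fin n) : Fin n ⊕ Fin n :=
  if i ∈ J then Sum.inr i else Sum.inl i

/-- JOB VM. The theorem for varieties.
Proof: adapt the proof of `t_V` in Pool/Agent/W333/ECV/D.lean (S_V from S_main): the tuple `y` there is replaced by the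
chosen coordinates `bs J`, the tuple `x` by the other coordinates (`x_i` for `i ∈ J`, `y_i` for `i ∉ J`), after
renaming the variables of `P` by the involution which exchanges `inl i` and `inr i` for `i ∉ J`. The chosen
coordinates are not zero and not constant in the function field because `V` is free. If the other
coordinates are algebraically independent over the field `K` of the chosen ones, take the point `p0` with
`H ≠ 0`, `y`-coordinates of `p0` being nonzero: `z_i = log` of the chosen coordinate for `i ∈ J`, `z_i` = the chosen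
coordinate for `i ∉ J` (every choice of the other coordinates is in the zero set of `P`). Otherwise `S_kern`
gives the irreducible `G ∈ K[X_1..X_n]`, and S_MM applies to `P := PP` (clear denominators): the third hypothesis is
`additive` (if `m` is supported in `J` and `∑ m_i x_i = c` in `L` then `V` is not additively free); the first is
`multiplicative`; the second: `∑ m_i A_i/B_i = c` on the curve implies the same in `K`, so `V` is not additively
free; the fourth: if `spec PP z v` vanishes on `x i = 0` for all points of the curve then `X i ∣ G`, so `G` is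
associated to `X i`, so the coordinate `y_i` of `V` is zero, contradiction; the last one is `degree`. -/
def S_VM : Prop := ∀ (n : ℕ) (P : Ideal (MvPolynomial (Fin n ⊕ Fin n) ℂ))
  (V : Set (Fin n ⊕ Fin n → ℂ)), P.IsPrime →
  V = {p | (∀ f ∈ P, MvPolynomial.eval p f = 0) ∧ ∀ j : Fin n, p (Sum.inr j) ≠ 0} →
  (∀ m : Fin n → ℤ, m ≠ 0 → ∀ c : ℂ, ∃ p ∈ V, (∑ j : Fin n, (m j : ℂ) * p (Sum.inl j)) ≠ c) →
  (∀ m : Fin n → ℤ, m ≠ 0 → ∀ c : ℂ, ∃ p ∈ V, (∏ j : Fin n, p (Sum.inr j) ^ (m j)) ≠ c) →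
  (∃ K : Finset (Fin n ⊕ Fin n), n ≤ K.card ∧
    ∀ f : MvPolynomial (Fin n ⊕ Fin n) ℂ, f.vars ⊆ K →
      (∀ p ∈ V, MvPolynomial.eval p f = 0) → f = 0) →
  ∀ J : Finset (Fin n),
  (∀ i j : Fin n, ∃ f : MvPolynomial (Fin 2) ℂ, f ≠ 0 ∧
    ∀ p ∈ V, MvPolynomial.eval ![p (bs J i), p (bs J j)] f = 0) →
  ∀ H : MvPolynomial (Fin n) ℂ, (∃ p ∈ V, MvPolynomial.eval (fun j => p (bs J j)) H ≠ 0) →
  ∃ z : Fin n → ℂ,
    (∀ f ∈ P, MvPolynomial.eval (Sum.elim z (fun i : Fin n => Complex.exp (z i))) f = 0) ∧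
    MvPolynomial.eval (fun j => (Sum.elim z (fun i : Fin n => Complex.exp (z i)) :
      Fin n ⊕ Fin n → ℂ) (bs J j)) H ≠ 0

end Pool.Agent.Q72.MX
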