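import Pool.Agent.Q72.MX.Stm
import Pool.Agent.W996.EC.QStm

/-!
Project MX (helper72): statements of the countable/cocountable dichotomy (row MP_a12702_lc), with
complete proofs in the docstrings.
-/

set_option autoImplicit false

namespace Pool.Agent.Q72.MX

open Filter Topology Polynomial Pool.Agent.W996.EC

/-- the solutions over the good cover, `R` units, `S` additively independent -/
def XS1 {a b K : ℕ} (F : ℂ[X][X]) (h : ℂ[X]) (R : Fin a → ℂ × ℂ → ℂ) (S : Fin b → ℂ × ℂ → ℂ)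
    (B : Finset (Fin b → ℤ)) (f : Fin K → ℂ → ℂ)
    (Q : Fin K → (Fin b → ℤ) → MvPolynomial (Fin a) ℂ[X][X]) : Set ℂ :=
  {s : ℂ | ∃ e ∈ ET (TT F h) R, ∑ k, f k s * EPv S B (Q k) e.1 e.2 = 0}

/-- JOB D1. Dichotomy, additively independent case.
Proof. Put `P_s β = ∑_k f_k(s) Q_k β` (a polynomial with coefficients in `ℂ[z][v]`; in the library
Pool.Agent.W973.EC.Dich it is `PP f P s`, see `spec_PP, eval_PP, coeff_PP`). If `s` is not in
`XS1` then by S_M (for the set `B` and `Q = P_s`) at most one of the `spec (P_s β)`, `β ∈ B`, is not identically zero on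
`TT F h`. So the complement of `XS1` is the union over `β ∈ B` of `Z_β = {s | spec (P_s γ) = 0 on TT F h for all
γ ∈ B, γ ≠ β, and P_s β has no zero on ET}` (if `B` is empty, or all are zero, then `s ∈ XS1` because `ET` is not
empty; if `TT F h`, hence `ET`, were empty everything is trivial, but it is not empty). The set
`{s | spec (P_s γ) = 0 on TT F h}` is an intersection of zero sets of entire functions, so all of `ℂ` or countable.
The set `{s | P_s β has a zero on ET}` is countable or cocountable by S_dich' (for `R`, no independence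
needed). Sets which are countable or cocountable are closed under finite intersections,
complements and finite unions. -/
def S_D1 : Prop := ∀ (a b K : ℕ) (F : ℂ[X][X]) (h : ℂ[X]) (R : Fin a → ℂ × ℂ → ℂ)
  (S : Fin b → ℂ × ℂ → ℂ), Cov F h → (∀ i, Reg (TT F h) (R i)) →
  (∀ i, ∀ p ∈ TT F h, R i p ≠ 0) → AddIndep (TT F h) S →
  ∀ (B : Finset (Fin b → ℤ)) (f : Fin K → ℂ → ℂ)
    (Q : Fin K → (Fin b → ℤ) → MvPolynomial (Fin a) ℂ[X][X]), (∀ k, Differentiable ℂ (f k)) →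
  (XS1 F h R S B f Q).Countable ∨ (XS1 F h R S B f Q)ᶜ.Countable

/-- JOB D2. Reduction to additively independent functions.
Proof. `L = {m ∈ ℤ^b : ∑ m_j S_j is constant on TT F h}` is a saturated subgroup, so `ℤ^b / L` is finitely
generated and torsion free, hence free: there are `b'`, a surjective `π : ℤ^b → ℤ^b'` with kernel `L` and a section
`σ` (additive, `π ∘ σ = id`). Put `S'_l = ∑_j σ(e_l)_j S_j` and `M j l = π(e_j)_l`. Then
`S_j - ∑_l M j l S'_l` is the combination with the vector `e_j - σ(π(e_j)) ∈ L`, so constant, and if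
`∑ m_l S'_l` is constant then `σ(m) ∈ L`, `m = π(σ(m)) = 0`. -/
def S_D2 : Prop := ∀ (b : ℕ) (F : ℂ[X][X]) (h : ℂ[X]) (S : Fin b → ℂ × ℂ → ℂ), Cov F h →
  (∀ j, Reg (TT F h) (S j)) →
  ∃ (b' : ℕ) (S' : Fin b' → ℂ × ℂ → ℂ) (M : Fin b → Fin b' → ℤ) (c : Fin b → ℂ),
    AddIndep (TT F h) S' ∧ ∀ p ∈ TT F h, ∀ j, S j p = ∑ l, (M j l : ℂ) * S' l p + c j

/-- the solutions over the good cover, general `R`, `S` -/
def XS2 {a b K : ℕ} (F : ℂ[X][X]) (h : ℂ[X]) (R : Fin a → ℂ × ℂ → ℂ) (S : Fin b → ℂ × ℂ → ℂ)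
    (f : Fin K → ℂ → ℂ) (P : Fin K → MvPolynomial (Fin a ⊕ Fin b) ℂ[X][X]) : Set ℂ :=
  {s : ℂ | ∃ p ∈ TT F h, ∃ x : Fin a → ℂ, (∀ i, Complex.exp (x i) = R i p) ∧
    ∑ k, f k s * MvPolynomial.eval (Sum.elim x (fun j => Complex.exp (S j p)))
      (MvPolynomial.map (evalEvalRingHom p.1 p.2) (P k)) = 0}

/-- JOB D3. Dichotomy over the good cover without independence.
Proof from S_D1, S_D2. With `S', M, c` of S_D2, `exp (S j) = exp (c j) ∏_l exp (S' l)^(M j l)`. The monomial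
`x^α y^β` (`β : Fin b → ℕ`) at `y = exp S` is `x^α exp(∑ β_j c_j) exp(dt S' β')`, `β'_l = ∑_j β_j M j l`. So
`eval (Sum.elim x (exp S)) (P k) = EPv S' B (Q k) p x`, where `Q k β' = ∑` over the monomials
`(α, β)` of `P k` with image `β'` of `coeff * exp(∑ β_j c_j) x^α`, and `B` is the set of all images. -/
def S_D3 : Prop := ∀ (a b K : ℕ) (F : ℂ[X][X]) (h : ℂ[X]) (R : Fin a → ℂ × ℂ → ℂ)
  (S : Fin b → ℂ × ℂ → ℂ), Cov F h → (∀ i, Reg (TT F h) (R i)) →
  (∀ i, ∀ p ∈ TT F h, R i p ≠ 0) → (∀ j, Reg (TT F h) (S j)) →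
  ∀ (f : Fin K → ℂ → ℂ) (P : Fin K → MvPolynomial (Fin a ⊕ Fin b) ℂ[X][X]),
  (∀ k, Differentiable ℂ (f k)) →
  (XS2 F h R S f P).Countable ∨ (XS2 F h R S f P)ᶜ.Countable

/-- the parameters `s` for which the system `F(z,v) = 0`, `exp x_i = (A_i/B_i)(z,v)`,
`y_j = exp ((A'_j/B'_j)(z,v))`, `∑ f_k(s) P_k(x, y; z, v) = 0` is solvable -/
def XSQ {a b K : ℕ} (F H : ℂ[X][X]) (A B : Fin a → ℂ[X][X]) (A' B' : Fin b → ℂ[X][X])
    (f : Fin K → ℂ → ℂ) (P : Fin K → MvPolynomial (Fin a ⊕ Fin b) ℂ[X][X]) : Set ℂ :=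
  {s | ∃ (z v : ℂ) (x : Fin a → ℂ) (y : Fin b → ℂ), F.evalEval z v = 0 ∧ H.evalEval z v ≠ 0 ∧
    (∀ i, (A i).evalEval z v ≠ 0 ∧ (B i).evalEval z v ≠ 0) ∧
    (∀ j, (B' j).evalEval z v ≠ 0) ∧
    (∀ i, Complex.exp (x i) = (A i).evalEval z v / (B i).evalEval z v) ∧
    (∀ j, y j = Complex.exp ((A' j).evalEval z v / (B' j).evalEval z v)) ∧
    ∑ k, f k s * MvPolynomial.eval (Sum.elim x y)
      (MvPolynomial.map (evalEvalRingHom z v) (P k)) = 0}

/-- JOB DQ. The final dichotomy.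
Proof from S_D3: adapt `t_Q` of Pool/Agent/W335/EC/QFin.lean (there are only countably many solutions `(z, v, x, y)` of the
first equations with `h z = 0`, and for each of them the set of `s` is the zero set of an entire function). -/
def S_DQ : Prop := ∀ (a b K : ℕ) (F H : ℂ[X][X]) (A B : Fin a → ℂ[X][X])
  (A' B' : Fin b → ℂ[X][X]) (f : Fin K → ℂ → ℂ)
  (P : Fin K → MvPolynomial (Fin a ⊕ Fin b) ℂ[X][X]),
  Irreducible F → 1 ≤ F.natDegree → ¬ F ∣ H → (∀ i, ¬ F ∣ A i) → (∀ i, ¬ F ∣ B i) →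
  (∀ j, ¬ F ∣ B' j) → (∀ k, Differentiable ℂ (f k)) →
  (XSQ F H A B A' B' f P).Countable ∨ (XSQ F H A B A' B' f P)ᶜ.Countable

end Pool.Agent.Q72.MX
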